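import Pool.Agent.Helper76.ADP.Adw

/-! THE ADAPTED (CUT, MIXED) THICK LEAF. Rows `f_j` of gradient size `2 ^ (w_j n)` with a minor of the full size
`2 ^ ((sum w) n)` in the columns `E ∘ inr`, known to `V`; the cells of the point over `V` have the rate `M - sum w`. Then, with
fresh digits for the rows below the level `1 - w_j`, a refinement of `V` of entropy `o(n)` is a leaf of dimension `M`; its
parameters are the rescaled free coordinates and the rescaled continued rows; the window `b` of the leaf is known to `V`,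
the fresh digits, the cells of level `b` of the free coordinates and the cells of level `min b (1 - w_j)` of the rows. -/

set_option autoImplicit false

namespace Pool.Agent.Helper76.ADP

open Finset Filter Topology Matrix Metric Pool.Agent.Helper69.RK Pool.Agent.Helper31.EC Pool.Agent.Helper31.EC.Sp
open Pool.Agent.Helper95.LF (PdM)
open Pool.Agent.Helper40.EL
open Pool.Agent.Helper3.LF Pool.Agent.Helper84.MT
open Pool.Agent.Helper89.LX (dot_self_nonneg sum_mul_le dl_one_le Sub_pow')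
open Pool.Agent.Helper76.RL (jac)
open Pool.Agent.Helper63.FRT
open Pool.Agent.Helper76.PUR
open Pool.Agent.Helper76.LG
open Pool.Agent.Helper76.THK (e00 clp clp_bd clp_eq LR relp relp_deg relp_spec relp_root cnt_fc cv)
open Pool.Agent.Helper85.OA

noncomputable section

variable {S : Sp} {M v q D : ℕ}

/-- THE ADAPTED LEAF (in the extension `rsp S q` by the fresh digits of the rows) -/
structure ALeaf (hvq : v + q = M) (V : ∀ k, Setoid (S.F k).Ω) (Q : S.VV M)
    (E : ∀ k, (S.F k).Ω → (Fin v ⊕ Fin q ≃ Fin M)) (f : ∀ k, (S.F k).Ω → Fin q → MvPolynomial (Fin M) ℝ)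
    (w : ∀ k, (S.F k).Ω → Fin q → ℝ) (U : S.VV q) (g L : ℕ)
    (La : ∀ k, Setoid ((rsp S q).F k).Ω) (P : (rsp S q).VV M) (u : (rsp S q).VV q) (N : ℕ → ℝ)
    (c : ∀ k, ((rsp S q).F k).Ω → Fin M → ℤ)
    (β : ∀ k, ((rsp S q).F k).Ω → Fin L) (A : ∀ k, ((rsp S q).F k).Ω → Prop)
    (l : Leaf (rsp S q) ((rpj S q).vv Q) (Pool.Agent.Helper84.MT.lin g)) : Prop where
  he : l.e = M
  eLa : l.La = La
  par : ∀ k w' (j : Fin M), l.Y.v k w' (Fin.cast he.symm j) = P.v k w' j
  /-- the chart of a free coordinate is the inverse of the rescaling -/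
  chart : ∀ᶠ k in UF, ∀ (w' : ((rsp S q).F k).Ω) (y : Fin l.e → ℝ) (i : Fin v),
    l.F k w' y (E k w'.1 (Sum.inl i)) = (c k w' (e00 hvq (Sum.inl i)) + y (Fin.cast he.symm (e00 hvq (Sum.inl i)))) / N k
  le : ∀ k, La k ≤ (rpj S q).pb V k
  vb : S.VB V → (rsp S q).VB La
  ent : Tendsto (fun k => h (fc (La k)) (fc ((rpj S q).pb V k)) / ((rsp S q).F k).n) UF (𝓝 0)
  N1 : ∀ᶠ k in UF, 1 ≤ N k
  subN : (rsp S q).Sub N
  /-- the first parameters -/
  eP : ∀ k w' (i : Fin v), P.v k w' (e00 hvq (Sum.inl i)) =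
    N k * Q.v k w'.1 (E k w'.1 (Sum.inl i)) - c k w' (e00 hvq (Sum.inl i))
  /-- the other parameters -/
  eR : ∀ k w' (j : Fin q), P.v k w' (e00 hvq (Sum.inr j)) = N k * u.v k w' j - c k w' (e00 hvq (Sum.inr j))
  /-- the continued rows are close to the rows -/
  uU : ∀ k w' (j : Fin q), |u.v k w' j - U.v k w'.1 j| ≤ S.dl (1 - w k w'.1 j) k
  tU : Typ (fun k ω => ∀ j, U.v k ω j = MvPolynomial.eval (Q.v k ω) (f k ω j))
  uP : ∀ᶠ k in UF, ∀ w' j, 0 ≤ P.v k w' j ∧ P.v k w' j ≤ 1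
  msc : ∀ᶠ k in UF, ∀ w1 w2, ((rsp S q).F k).μ w1 ≠ 0 → ((rsp S q).F k).μ w2 ≠ 0 → ((rsp S q).F k).Z w1 w2 →
    La k w1 w2 → c k w1 = c k w2
  fl : ∀ᶠ k in UF, ∀ w', (∀ i : Fin v, c k w' (e00 hvq (Sum.inl i)) = ⌊N k * Q.v k w'.1 (E k w'.1 (Sum.inl i))⌋) ∧
    ∀ j : Fin q, c k w' (e00 hvq (Sum.inr j)) = ⌊N k * u.v k w' j⌋
  tA : Typ A
  idx : ∀ k w1 w2, A k w1 → A k w2 → (rpj S q).pb V k w1 w2 → c k w1 = c k w2 → β k w1 = β k w2 → La k w1 w2
  /-- windows of the parameters -/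
  winP : ∀ b : ℝ, PLe (S := rsp S q) (fun k => fc (La k ⊓ Setoid.ker (P.cellv b k)))
    (fun k => fc (aB V (aS Q E) U w b k))
  /-- windows of the leaf -/
  win : ∀ b : ℝ, PLe (S := rsp S q) (l.win b) (fun k => fc (aB V (aS Q E) U w b k))

/-- the number of values of the index -/
def nA (M D : ℕ) : ℕ := nC (Kr M (LR M D))

/-- the grade -/
def gA (M D : ℕ) : ℕ := 1 * cA M (M + M) (LR M D)

/-- THE ADAPTED LEAF -/
theorem adapted (hvq : v + q = M) (hD : 1 ≤ D) {V : ∀ k, Setoid (S.F k).Ω} {Q : S.VV M}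
    {E : ∀ k, (S.F k).Ω → (Fin v ⊕ Fin q ≃ Fin M)} {f : ∀ k, (S.F k).Ω → Fin q → MvPolynomial (Fin M) ℝ}
    {w : ∀ k, (S.F k).Ω → Fin q → ℝ} (x : RowsF V Q D E f w) :
    ∃ (U : S.VV q)
      (La : ∀ k, Setoid ((rsp S q).F k).Ω) (P : (rsp S q).VV M) (u : (rsp S q).VV q) (N : ℕ → ℝ)
      (c : ∀ k, ((rsp S q).F k).Ω → Fin M → ℤ)
      (β : ∀ k, ((rsp S q).F k).Ω → Fin (nA M D)) (A : ∀ k, ((rsp S q).F k).Ω → Prop)
      (l : Leaf (rsp S q) ((rpj S q).vv Q) (Pool.Agent.Helper84.MT.lin (gA M D))),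
      ALeaf hvq V Q E f w U (gA M D) (nA M D) La P u N c β A l := by
  classical
  obtain ⟨K, A0, y⟩ := exists_K x
  obtain ⟨F, z, hR⟩ := adp_root hvq hD x y
  have hL1 : 1 ≤ LR M D := le_max_left _ _
  have hδev := adl_ev S M D w y.K1 x.w01
  obtain ⟨La, P, N, c, β, A, l, s⟩ := pleaf1 le_rfl hL1 (chF_of_root one_pos hL1 hR)
    ((rpj S q).vv Q) ⟨fun _ => 1, (rsp S q).Sub_const zero_le_one,
      Eventually.of_forall fun k w' _ i => by
        rw [sub_self, abs_zero, one_mul]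
        exact ((rsp S q).dl_pos 1 k).le⟩
  have hwin : ∀ b : ℝ, PLe (S := rsp S q) (fun k => fc (La k ⊓ Setoid.ker (P.cellv b k)))
      (fun k => fc (aB V (aS Q E) (aU Q f y.subK) w b k)) := fun b =>
    win_mix hvq x y s.ent s.N1 s.subN s.eP s.msc b
  refine ⟨aU Q f y.subK, La, P, rv (aU Q f y.subK) (adl S M D w K) hδev, N, c, β, A, l,
    ⟨s.he, s.eLa, s.par, ?_, s.le, ?_, s.ent, s.N1, s.subN, ?_, ?_, ?_, ?_, s.uP, s.msc, ?_, s.tA, s.idx, hwin, ?_⟩⟩
  · filter_upwards [s.chart] with k hk w' y' i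
    exact hk w' y' _ _ (apin_inl hvq E k w' i)
  · intro hV
    exact s.vb ((rpj S q).vb_pb.mpr hV)
  · intro k w' i
    rw [s.eP, aY_inl]
  · intro k w' j
    rw [s.eP, aY_inr]
    rfl
  · intro k w' j
    exact (rvl_near (aU Q f y.subK) (adl S M D w K) k w' j (adl_pos S M D w y.K1 k _ j)).trans
      (adl_dl S M D w y.K1 k _ j)
  · refine y.tA.mono ?_
    filter_upwards [y.bd] with k hk ω hω hA j
    exact clp_eq (hk ω hω hA j)
  · filter_upwards [s.fl] with k hk w'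
    refine ⟨fun i => ?_, fun j => ?_⟩
    · rw [hk, aY_inl]
    · rw [hk, aY_inr]
      rfl
  · intro b
    have e1 : (fun k => fc (La k ⊓ Setoid.ker (P.cellv b k))) = l.win b := by
      funext k
      unfold Leaf.win
      rw [s.eLa]
      congr 2
      ext w1 w2
      constructor
      · intro hh
        show l.Y.cellv b k w1 = l.Y.cellv b k w2
        funext j
        have e2 : ∀ w', l.Y.v k w' j = P.v k w' (Fin.cast s.he j) := by
          intro w'
          rw [← s.par k w' (Fin.cast s.he j)]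
          rfl
        show ⌊l.Y.v k w1 j / _⌋ = ⌊l.Y.v k w2 j / _⌋
        rw [e2, e2]
        exact congrFun hh (Fin.cast s.he j)
      · intro hh
        show P.cellv b k w1 = P.cellv b k w2
        funext j
        show ⌊P.v k w1 j / _⌋ = ⌊P.v k w2 j / _⌋
        rw [← s.par k w1 j, ← s.par k w2 j]
        exact congrFun hh (Fin.cast s.he.symm j)
    have h2 := hwin b
    rw [e1] at h2
    exact h2

end

end Pool.Agent.Helper76.ADP
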