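import Pool.Agent.Helper76.ADP.Prf

/-! PREFIX FORMS GIVE ROWS, part 2: the adapter to the adapted leaf. -/

set_option autoImplicit false

namespace Pool.Agent.Helper76.ADP

open Finset Filter Topology Matrix Metric Pool.Agent.Helper69.RK Pool.Agent.Helper31.EC Pool.Agent.Helper31.EC.Sp
open Pool.Agent.Helper95.LF (PdM)
open Pool.Agent.Helper40.EL
open Pool.Agent.Helper3.LF Pool.Agent.Helper84.MT
open Pool.Agent.Helper89.LX (dot_self_nonneg sum_mul_le dl_one_le Sub_pow')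
open Pool.Agent.Helper76.RL (fam fam_deg jac Rw trp pderiv_trp eval_trp)
open Pool.Agent.Helper76.DIM (pck fac fac_spec ent_fin)
open Pool.Agent.Helper76.PUR (jac_X jac_fam rows_bd cW_one nRw)
open Pool.Agent.Helper76.THK (e00 nodp_zero)
open Pool.Agent.Helper81.CP2 (pre)

noncomputable section

variable {S : Sp} {M v q : ℕ}

/-- PREFIX FORMS: for every `j` with `v ≤ j < M` a form in the coordinates `τ_0, .., τ_j`, known to `V`, with exponent `w_j`
in the direction `τ_j` and no larger exponent -/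
structure PreF (V : ∀ k, Setoid (S.F k).Ω) (Q : S.VV M) (τ : Fin M → Fin M) (v : ℕ) (D : Fin M → ℕ)
    (A : ∀ (j : Fin M) (k : ℕ), (S.F k).Ω → Matrix (Mon ((j : ℕ) + 1) (D j)) (Mon ((j : ℕ) + 1) (D j)) ℝ)
    (w : ∀ k, (S.F k).Ω → Fin M → ℝ) : Prop where
  D1 : ∀ j : Fin M, v ≤ j → 1 ≤ D j
  pd : ∀ j : Fin M, v ≤ j → ∀ᶠ k in UF, ∀ ω, (S.F k).μ ω ≠ 0 → PdM (A j k ω)
  ms : ∀ j : Fin M, v ≤ j → ∀ᶠ k in UF, ∀ ω ω', (S.F k).μ ω ≠ 0 → (S.F k).μ ω' ≠ 0 → (S.F k).Z ω ω' → V k ω ω' →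
    A j k ω = A j k ω'
  msw : ∀ j : Fin M, v ≤ j → ∀ᶠ k in UF, ∀ ω ω', (S.F k).μ ω ≠ 0 → (S.F k).μ ω' ≠ 0 → (S.F k).Z ω ω' → V k ω ω' →
    w k ω j = w k ω' j
  w01 : ∀ j : Fin M, v ≤ j → ∀ᶠ k in UF, ∀ ω, (S.F k).μ ω ≠ 0 → 0 ≤ w k ω j ∧ w k ω j ≤ 1
  sm : ∀ j : Fin M, v ≤ j → ∀ η : ℝ, 0 < η → Typ (fun k ω =>
    phi (S.dl 1 k) (A j k ω) ((pck Q (pre τ j)).v k ω) ≤ 2 ^ (η * (S.F k).n))
  lo : ∀ j : Fin M, v ≤ j → ∀ η : ℝ, 0 < η → Typ (fun k ω => 2 ^ (2 * (w k ω j - η) * (S.F k).n) ≤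
    (1 + Jq (S.dl 1 k) (A j k ω) ((pck Q (pre τ j)).v k ω)) (Fin.last j) (Fin.last j))
  hi : ∀ j : Fin M, v ≤ j → ∀ η : ℝ, 0 < η → Typ (fun k ω =>
    (Jq (S.dl 1 k) (A j k ω) ((pck Q (pre τ j)).v k ω)).trace ≤ 2 ^ (2 * (w k ω j + η) * (S.F k).n))
  fu : ∀ ε : ℝ, 0 < ε → ∀ᶠ k in UF, (M - ε) * (S.F k).n ≤
    (S.F k).e (Setoid.ker (Q.cellv 1 k)) (V k ⊓ (S.F k).Z) +
      (S.F k).n * ∑ ω, (S.F k).μ ω * ∑ j ∈ univ.filter (fun j : Fin M => v ≤ j), w k ω j

lemma e00_inr_val (hvq : v + q = M) (j : Fin q) : (e00 hvq (Sum.inr j) : ℕ) = v + j := rfl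

lemma e00_inl_val (hvq : v + q = M) (i : Fin v) : (e00 hvq (Sum.inl i) : ℕ) = i := rfl

lemma le_inr (hvq : v + q = M) (j : Fin q) : v ≤ (e00 hvq (Sum.inr j) : ℕ) := by
  rw [e00_inr_val]
  exact Nat.le_add_right _ _

lemma sum_filter (hvq : v + q = M) (f : Fin M → ℝ) :
    ∑ j ∈ univ.filter (fun j : Fin M => v ≤ j), f j = ∑ j : Fin q, f (e00 hvq (Sum.inr j)) := by
  rw [Finset.sum_filter, ← Equiv.sum_comp (e00 hvq), Fintype.sum_sum_type]
  have h1 : ∀ i : Fin v, (if v ≤ (e00 hvq (Sum.inl i) : ℕ) then f (e00 hvq (Sum.inl i)) else 0) = 0 := by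
    intro i
    rw [if_neg]
    rw [e00_inl_val]
    exact not_le.mpr i.2
  rw [Finset.sum_congr rfl fun i _ => h1 i, Finset.sum_const_zero, zero_add]
  exact Finset.sum_congr rfl fun j _ => if_pos (le_inr hvq j)

section

variable (Q : S.VV M) (τ : Fin M → Fin M) {D : Fin M → ℕ}
    (A : ∀ (j : Fin M) (k : ℕ), (S.F k).Ω → Matrix (Mon ((j : ℕ) + 1) (D j)) (Mon ((j : ℕ) + 1) (D j)) ℝ)

open Classical in
/-- the best row of the form of `j` -/
def prow (j : Fin M) (k : ℕ) (ω : (S.F k).Ω) : Rw ((j : ℕ) + 1) (D j) :=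
  if h : ∃ I : Rw ((j : ℕ) + 1) (D j), (1 + Jq (S.dl 1 k) (A j k ω) ((pck Q (pre τ j)).v k ω)) (Fin.last j) (Fin.last j) ≤
    nRw ((j : ℕ) + 1) (D j) * (MvPolynomial.eval ((pck Q (pre τ j)).v k ω)
      (MvPolynomial.pderiv (Fin.last j) (fam (fac (A j k ω)) (S.dl 1 k) I))) ^ 2 then h.choose
  else Sum.inr (Fin.last j)

lemma prow_spec {j : Fin M} {k : ℕ} {ω : (S.F k).Ω} (hA : PdM (A j k ω)) :
    (1 + Jq (S.dl 1 k) (A j k ω) ((pck Q (pre τ j)).v k ω)) (Fin.last j) (Fin.last j) ≤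
    nRw ((j : ℕ) + 1) (D j) * (MvPolynomial.eval ((pck Q (pre τ j)).v k ω)
      (MvPolynomial.pderiv (Fin.last j) (fam (fac (A j k ω)) (S.dl 1 k) (prow Q τ A j k ω)))) ^ 2 := by
  have h := row_sel hA (S.dl 1 k) ((pck Q (pre τ j)).v k ω) (Fin.last j)
  unfold prow
  rw [dif_pos h]
  exact h.choose_spec

/-- the row as a polynomial of all coordinates -/
def ppol (j : Fin M) (k : ℕ) (ω : (S.F k).Ω) : MvPolynomial (Fin M) ℝ :=
  MvPolynomial.rename (pre τ j) (fam (fac (A j k ω)) (S.dl 1 k) (prow Q τ A j k ω))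

/-- the code of the rows -/
def pcode (hvq : v + q = M) (k : ℕ) (ω : (S.F k).Ω) :
    ∀ j : Fin q, Rw ((e00 hvq (Sum.inr j) : ℕ) + 1) (D (e00 hvq (Sum.inr j))) :=
  fun j => prow Q τ A (e00 hvq (Sum.inr j)) k ω

/-- the rows -/
def prows (hvq : v + q = M) (k : ℕ) (ω : (S.F k).Ω) (j : Fin q) : MvPolynomial (Fin M) ℝ :=
  ppol Q τ A (e00 hvq (Sum.inr j)) k ω

/-- the columns -/
def pE (hvq : v + q = M) {τ : Fin M → Fin M} (hτ : Function.Bijective τ) : Fin v ⊕ Fin q ≃ Fin M :=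
  (e00 hvq).trans (Equiv.ofBijective τ hτ)

lemma pre_inj {τ : Fin M → Fin M} (hτ : Function.Injective τ) (j : Fin M) : Function.Injective (pre τ j) := by
  intro a b h
  have h1 := hτ h
  have h2 := congrArg Fin.val h1
  exact Fin.ext h2

lemma pre_last (j : Fin M) : pre τ j (Fin.last j) = τ j := rfl

lemma pre_range {τ : Fin M → Fin M} (hτ : Function.Injective τ) {i j : Fin M} (h : (j : ℕ) < i) :
    τ i ∉ Set.range (pre τ j) := by
  rintro ⟨a, ha⟩
  have h1 := hτ ha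
  have h2 := congrArg Fin.val h1
  have h3 : (a : ℕ) = i := h2
  have h4 := a.2
  omega

variable {τ}

lemma ppol_der (hτ : Function.Injective τ) (j : Fin M) (k : ℕ) (ω : (S.F k).Ω) (y : Fin M → ℝ)
    (i : Fin ((j : ℕ) + 1)) : MvPolynomial.eval y (MvPolynomial.pderiv (pre τ j i) (ppol Q τ A j k ω)) =
      MvPolynomial.eval (fun i => y (pre τ j i))
        (MvPolynomial.pderiv i (fam (fac (A j k ω)) (S.dl 1 k) (prow Q τ A j k ω))) := by
  unfold ppol
  rw [MvPolynomial.pderiv_rename (pre_inj hτ j), MvPolynomial.eval_rename]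
  rfl

lemma ppol_der0 (j : Fin M) (k : ℕ) (ω : (S.F k).Ω) (a : Fin M) (ha : a ∉ Set.range (pre τ j)) :
    MvPolynomial.pderiv a (ppol Q τ A j k ω) = 0 := by
  classical
  apply MvPolynomial.pderiv_eq_zero_of_notMem_vars
  intro h
  unfold ppol at h
  have h1 := MvPolynomial.vars_rename (pre τ j) _ h
  rw [Finset.mem_image] at h1
  obtain ⟨i, -, hi⟩ := h1
  exact ha ⟨i, hi⟩

lemma ppol_eval (j : Fin M) (k : ℕ) (ω : (S.F k).Ω) :
    MvPolynomial.eval (Q.v k ω) (ppol Q τ A j k ω) =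
      MvPolynomial.eval ((pck Q (pre τ j)).v k ω) (fam (fac (A j k ω)) (S.dl 1 k) (prow Q τ A j k ω)) := by
  unfold ppol
  rw [MvPolynomial.eval_rename]
  rfl

end

section

variable (hvq : v + q = M) {V : ∀ k, Setoid (S.F k).Ω} {Q : S.VV M} {τ : Fin M → Fin M} {D : Fin M → ℕ}
    {A : ∀ (j : Fin M) (k : ℕ), (S.F k).Ω → Matrix (Mon ((j : ℕ) + 1) (D j)) (Mon ((j : ℕ) + 1) (D j)) ℝ}
    {w : ∀ k, (S.F k).Ω → Fin M → ℝ}

/-- the rows are small -/
lemma prows_bd (x : PreF V Q τ v D A w) (J : Fin M) (hJv : v ≤ (J : ℕ)) {η : ℝ} (hη : 0 < η) :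
    Typ (fun k ω => |MvPolynomial.eval (Q.v k ω) (ppol Q τ A J k ω)| ≤ 2 ^ (η * (S.F k).n)) := by
  obtain ⟨Kq, hKq, hQ⟩ := Q.bd
  refine (x.sm J hJv (η / 2) (by linarith)).mono ?_
  have hS1 : S.Sub (fun k => 2 * Pool.Agent.Helper76.RL.cP ((J : ℕ) + 1) (D J) * (|Kq k| + 1)) := by
    have hKq' : S.Sub (fun k => |Kq k|) := by
      refine sub_congr hKq ?_
      filter_upwards [hKq.1] with k hk
      exact (abs_of_nonneg hk).symm
    have := Pool.Agent.Helper76.RL.cP_one ((J : ℕ) + 1) (D J)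
    exact (S.Sub_const (by positivity)).mul (hKq'.add (S.Sub_const zero_le_one))
  filter_upwards [x.pd J hJv, hQ, hS1.eventually_le (show 0 < η / 2 by linarith)] with k a1 a2 a3 ω hω h
  have hn := (S.F k).pos
  have hT1 : (1 : ℝ) ≤ 2 ^ (η / 2 * (S.F k).n) := Real.one_le_rpow (by norm_num) (by positivity)
  rw [ppol_eval]
  set T : ℝ := 2 ^ (η / 2 * (S.F k).n) with hT
  have h0 := abs_nonneg (Kq k)
  have h1 := rows_bd (a1 ω hω) (S.dl_pos 1 k) (dl_one_le S k) (K := (|Kq k| + 1) * T)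
    (one_le_mul_of_one_le_of_one_le (by linarith) hT1) ((pck Q (pre τ J)).v k ω) (h.trans (by nlinarith))
    (fun i => (a2 ω hω _).trans ((le_abs_self _).trans (by nlinarith))) (prow Q τ A J k ω) (fun _ => 0)
  rw [nodp_zero] at h1
  refine h1.trans ?_
  unfold Pool.Agent.Helper76.PUR.cW
  have h5 : (2 : ℝ) ^ (η * (S.F k).n) = T * T := by
    rw [hT, ← Real.rpow_add (by norm_num)]
    congr 1
    ring
  rw [h5, ← mul_assoc]
  exact mul_le_mul_of_nonneg_right (by linarith) (by linarith)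

/-- the gradients of the rows -/
lemma prows_der (hτ : Function.Injective τ) (x : PreF V Q τ v D A w) (J : Fin M) (hJv : v ≤ (J : ℕ)) {η : ℝ}
    (hη : 0 < η) : Typ (fun k ω => ∀ y : Fin M → ℝ, (∀ i, |y i - Q.v k ω i| ≤ S.dl 1 k) → ∀ a,
        |MvPolynomial.eval y (MvPolynomial.pderiv a (ppol Q τ A J k ω))| ≤ 2 ^ ((w k ω J + η) * (S.F k).n)) := by
  refine (x.hi J hJv (η / 2) (by linarith)).mono ?_
  have hS1 : S.Sub (fun _ => cG ((J : ℕ) + 1) (D J)) := S.Sub_const (by have := cG_one ((J : ℕ) + 1) (D J); linarith)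
  filter_upwards [x.pd J hJv, x.w01 J hJv, hS1.eventually_le (show 0 < η / 2 by linarith)]
    with k a1 a2 a3 ω hω h y hy a
  have hn := (S.F k).pos
  by_cases ha : a ∈ Set.range (pre τ J)
  · obtain ⟨i, rfl⟩ := ha
    rw [ppol_der Q A hτ]
    have hG1 : (1 : ℝ) ≤ 2 ^ ((w k ω J + η / 2) * (S.F k).n) := by
      apply Real.one_le_rpow (by norm_num)
      have := (a2 ω hω).1
      positivity
    have h1 := row_grad (a1 ω hω) (S.dl_pos 1 k) (x := (pck Q (pre τ J)).v k ω) (y := fun i => y (pre τ J i))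
      (fun i => hy _) hG1 (by
        refine h.trans (le_of_eq ?_)
        rw [← Real.rpow_natCast, ← Real.rpow_mul (by norm_num)]
        congr 1
        push_cast
        ring) (prow Q τ A J k ω) i
    refine h1.trans ?_
    have h5 : (2 : ℝ) ^ ((w k ω J + η) * (S.F k).n) =
        2 ^ (η / 2 * (S.F k).n) * 2 ^ ((w k ω J + η / 2) * (S.F k).n) := by
      rw [← Real.rpow_add (by norm_num)]
      congr 1
      ring
    rw [h5]
    exact mul_le_mul_of_nonneg_right (by linarith) (by linarith)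
  · rw [ppol_der0 Q A J k ω a ha, map_zero, abs_zero]
    positivity

/-- the last derivative of the row -/
lemma prows_low (hτ : Function.Injective τ) (x : PreF V Q τ v D A w) (J : Fin M) (hJv : v ≤ (J : ℕ)) {η : ℝ}
    (hη : 0 < η) : Typ (fun k ω => 2 ^ ((w k ω J - η) * (S.F k).n) ≤
      |MvPolynomial.eval (Q.v k ω) (MvPolynomial.pderiv (τ J) (ppol Q τ A J k ω))|) := by
  refine (x.lo J hJv (η / 2) (by linarith)).mono ?_
  have hS1 : S.Sub (fun _ => (nRw ((J : ℕ) + 1) (D J) : ℝ)) := S.Sub_const (Nat.cast_nonneg _)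
  filter_upwards [x.pd J hJv, hS1.eventually_le hη] with k a1 a3 ω hω h
  have hn := (S.F k).pos
  have e1 : τ J = pre τ J (Fin.last J) := rfl
  rw [e1, ppol_der Q A hτ]
  have h1 := h.trans (prow_spec Q τ A (a1 ω hω))
  have e2 : (fun i => Q.v k ω (pre τ J i)) = (pck Q (pre τ J)).v k ω := rfl
  rw [e2]
  generalize MvPolynomial.eval ((pck Q (pre τ J)).v k ω)
    (MvPolynomial.pderiv (Fin.last J) (fam (fac (A J k ω)) (S.dl 1 k) (prow Q τ A J k ω))) = d at h1 ⊢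
  have h2 : (nRw ((J : ℕ) + 1) (D J) : ℝ) * d ^ 2 ≤ 2 ^ (η * (S.F k).n) * d ^ 2 :=
    mul_le_mul_of_nonneg_right (by linarith) (sq_nonneg _)
  have h3 : (2 ^ ((w k ω J - η) * (S.F k).n)) ^ 2 ≤ d ^ 2 := by
    have h4 : (2 : ℝ) ^ (2 * (w k ω J - η / 2) * (S.F k).n) =
        2 ^ (η * (S.F k).n) * (2 ^ ((w k ω J - η) * (S.F k).n)) ^ 2 := by
      rw [← Real.rpow_natCast, ← Real.rpow_mul (by norm_num), ← Real.rpow_add (by norm_num)]
      congr 1
      push_cast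
      ring
    have h5 := h1.trans h2
    rw [h4] at h5
    exact le_of_mul_le_mul_left h5 (by positivity)
  have h6 : (0 : ℝ) ≤ 2 ^ ((w k ω J - η) * (S.F k).n) := by positivity
  rw [← abs_of_nonneg h6]
  exact sq_le_sq.mp h3

/-- the minor is triangular -/
lemma prows_tri (hτ : Function.Bijective τ) (k : ℕ) (ω : (S.F k).Ω) :
    (rmx (pE hvq hτ) (prows Q τ A hvq k ω) (Q.v k ω)).det =
      ∏ j : Fin q, MvPolynomial.eval (Q.v k ω) (MvPolynomial.pderiv (τ (e00 hvq (Sum.inr j)))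
        (ppol Q τ A (e00 hvq (Sum.inr j)) k ω)) := by
  have hent : ∀ j i : Fin q, rmx (pE hvq hτ) (prows Q τ A hvq k ω) (Q.v k ω) j i =
      MvPolynomial.eval (Q.v k ω) (MvPolynomial.pderiv (τ (e00 hvq (Sum.inr i)))
        (ppol Q τ A (e00 hvq (Sum.inr j)) k ω)) := by
    intro j i
    unfold rmx prows pE
    rw [Matrix.of_apply, Equiv.trans_apply, Equiv.ofBijective_apply]
  have htri : (rmx (pE hvq hτ) (prows Q τ A hvq k ω) (Q.v k ω)).IsLowerTriangular := by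
    intro j i hji
    have hji' : j < i := hji
    have h1 : τ (e00 hvq (Sum.inr i)) ∉ Set.range (pre τ (e00 hvq (Sum.inr j))) := by
      apply pre_range hτ.1
      rw [e00_inr_val, e00_inr_val]
      exact Nat.add_lt_add_left hji' v
    rw [hent, ppol_der0 Q A (e00 hvq (Sum.inr j)) k ω _ h1, map_zero]
  rw [Matrix.det_of_isLowerTriangular _ htri]
  exact Finset.prod_congr rfl fun j _ => hent j j

end

/-- THE ADAPTER -/
theorem rows_of_pre (hvq : v + q = M) {V : ∀ k, Setoid (S.F k).Ω} {Q : S.VV M} {τ : Fin M → Fin M}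
    (hτ : Function.Bijective τ) {D : Fin M → ℕ} {Dm : ℕ} (hDm : ∀ j, D j ≤ Dm)
    {A : ∀ (j : Fin M) (k : ℕ), (S.F k).Ω → Matrix (Mon ((j : ℕ) + 1) (D j)) (Mon ((j : ℕ) + 1) (D j)) ℝ}
    {w : ∀ k, (S.F k).Ω → Fin M → ℝ} (x : PreF V Q τ v D A w) :
    RowsF (fun k => V k ⊓ Setoid.ker (pcode Q τ A hvq k)) Q Dm (fun _ _ => pE hvq hτ) (prows Q τ A hvq)
      (fun k ω j => w k ω (e00 hvq (Sum.inr j))) := by
  classical
  have hms : ∀ᶠ k in UF, ∀ j : Fin q, ∀ ω ω', (S.F k).μ ω ≠ 0 → (S.F k).μ ω' ≠ 0 → (S.F k).Z ω ω' → V k ω ω' →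
      A (e00 hvq (Sum.inr j)) k ω = A (e00 hvq (Sum.inr j)) k ω' := by
    rw [eventually_all]
    exact fun j => x.ms _ (le_inr hvq j)
  have hmsw : ∀ᶠ k in UF, ∀ j : Fin q, ∀ ω ω', (S.F k).μ ω ≠ 0 → (S.F k).μ ω' ≠ 0 → (S.F k).Z ω ω' → V k ω ω' →
      w k ω (e00 hvq (Sum.inr j)) = w k ω' (e00 hvq (Sum.inr j)) := by
    rw [eventually_all]
    exact fun j => x.msw _ (le_inr hvq j)
  have hw01 : ∀ᶠ k in UF, ∀ j : Fin q, ∀ ω, (S.F k).μ ω ≠ 0 → 0 ≤ w k ω (e00 hvq (Sum.inr j)) ∧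
      w k ω (e00 hvq (Sum.inr j)) ≤ 1 := by
    rw [eventually_all]
    exact fun j => x.w01 _ (le_inr hvq j)
  refine ⟨?_, ?_, Eventually.of_forall fun _ _ _ _ _ _ _ => rfl, ?_, ?_, ?_, ?_, ?_, ?_⟩
  · filter_upwards [hw01] with k hk ω hω j using hk j ω hω
  · refine Eventually.of_forall fun k ω _ j => ?_
    refine (MvPolynomial.totalDegree_rename_le _ _).trans ?_
    exact (fam_deg (x.D1 _ (le_inr hvq j)) _ _ _).trans (hDm _)
  · filter_upwards [hms] with k hk ω ω' a b z h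
    have e1 : pcode Q τ A hvq k ω = pcode Q τ A hvq k ω' := h.2
    funext j
    have e2 : prow Q τ A (e00 hvq (Sum.inr j)) k ω = prow Q τ A (e00 hvq (Sum.inr j)) k ω' := congrFun e1 j
    show MvPolynomial.rename _ _ = MvPolynomial.rename _ _
    rw [hk j ω ω' a b z h.1, e2]
  · filter_upwards [hmsw] with k hk ω ω' a b z h
    funext j
    exact hk j ω ω' a b z h.1
  · intro η hη
    exact Pool.Agent.Helper63.MT.typ_all fun j => prows_bd x _ (le_inr hvq j) hη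
  · intro η hη
    refine (Pool.Agent.Helper63.MT.typ_all fun j : Fin q => prows_der hτ.1 x _ (le_inr hvq j) hη).mono
      (Eventually.of_forall fun k ω _ h y hy j a => h j y hy a)
  · intro η hη
    have hqp : (0 : ℝ) < q + 1 := by positivity
    refine (Pool.Agent.Helper63.MT.typ_all fun j : Fin q =>
      prows_low hτ.1 x _ (le_inr hvq j) (show 0 < η / (q + 1) by positivity)).mono
      (Eventually.of_forall fun k ω _ h => ?_)
    have hn := (S.F k).pos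
    rw [prows_tri, Finset.abs_prod]
    have e2 : (2 : ℝ) ^ ((∑ j, w k ω (e00 hvq (Sum.inr j)) - η) * (S.F k).n) ≤
        ∏ j : Fin q, 2 ^ ((w k ω (e00 hvq (Sum.inr j)) - η / (q + 1)) * (S.F k).n) := by
      rw [← Real.rpow_sum_of_pos (by norm_num), ← Finset.sum_mul, Finset.sum_sub_distrib, Finset.sum_const,
        Finset.card_univ, Fintype.card_fin, nsmul_eq_mul]
      apply Real.rpow_le_rpow_of_exponent_le (by norm_num)
      apply mul_le_mul_of_nonneg_right _ hn.le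
      have h1 : (q : ℝ) * (η / (q + 1)) ≤ η := by
        rw [mul_div_assoc', div_le_iff₀ hqp]
        nlinarith
      linarith
    exact e2.trans (Finset.prod_le_prod (fun j _ => by positivity) fun j _ => h j)
  · intro ε hε
    filter_upwards [x.fu (ε / 2) (by linarith), ent_fin (S := S) (pcode Q τ A hvq) V (show 0 < ε / 2 by linarith)]
      with k a b
    have h1 := (S.F k).e_triangle (Setoid.ker (Q.cellv 1 k)) (Setoid.ker (pcode Q τ A hvq k)) (V k ⊓ (S.F k).Z)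
    have e1 : Setoid.ker (pcode Q τ A hvq k) ⊓ (V k ⊓ (S.F k).Z) = V k ⊓ Setoid.ker (pcode Q τ A hvq k) ⊓ (S.F k).Z := by
      ac_rfl
    rw [e1] at h1
    have e2 : ∀ ω, ∑ j ∈ univ.filter (fun j : Fin M => v ≤ j), w k ω j = ∑ j : Fin q, w k ω (e00 hvq (Sum.inr j)) :=
      fun ω => sum_filter hvq _
    rw [Finset.sum_congr rfl fun ω _ => by rw [e2 ω]] at a
    have hn := (S.F k).pos
    nlinarith

/-- a finite code does not disturb the independence -/
theorem ni_code {α : Type} [Fintype α] (X : ∀ k, (S.F k).Ω → α) {V : ∀ k, Setoid (S.F k).Ω} {B C : Part S}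
    (h : Pool.Agent.Helper38.NSL.NI (fun k => fc (V k)) B C) :
    Pool.Agent.Helper38.NSL.NI (fun k => fc (V k ⊓ Setoid.ker (X k))) B C := by
  refine h.mono_left ?_
  have e1 : (fun k => fc (F := S.F k) (V k ⊓ Setoid.ker (X k))) = fun k => fc (V k) ⊔ fc (Setoid.ker (X k)) := by
    funext k
    exact fc_inf _ _
  rw [e1]
  exact (Pool.Agent.Helper38.NSL.PLe_left _ _).sup_le
    (Pool.Agent.Helper63.FRT.fin_PLe X (Pool.Agent.Helper38.NSL.Pjn (fun k => fc (V k)) C))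

/-- the label with the code of the rows has entropy `o(n)` over `V` -/
theorem code_ent {α : Type} [Fintype α] (X : ∀ k, (S.F k).Ω → α) (V : ∀ k, Setoid (S.F k).Ω) :
    PLe (S := S) (fun k => fc (V k ⊓ Setoid.ker (X k))) (fun k => fc (V k)) := by
  have e1 : (fun k => fc (F := S.F k) (V k ⊓ Setoid.ker (X k))) = fun k => fc (V k) ⊔ fc (Setoid.ker (X k)) := by
    funext k
    exact fc_inf _ _
  rw [e1]
  exact (PLe.refl _).sup_le (Pool.Agent.Helper63.FRT.fin_PLe X (fun k => fc (V k)))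

end

end Pool.Agent.Helper76.ADP
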