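import Pool.Agent.Helper76.ADP.Adf

/-! THE ADAPTED LEAF, part 2: the mixed parameters and their fullness. -/

set_option autoImplicit false

namespace Pool.Agent.Helper76.ADP

open Finset Filter Topology Matrix Metric Pool.Agent.Helper69.RK Pool.Agent.Helper31.EC Pool.Agent.Helper31.EC.Sp
open Pool.Agent.Helper95.LF (PdM)
open Pool.Agent.Helper40.EL
open Pool.Agent.Helper3.LF Pool.Agent.Helper84.MT
open Pool.Agent.Helper89.LX (dot_self_nonneg sum_mul_le dl_one_le Sub_pow')
open Pool.Agent.Helper76.RL (jac)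
open Pool.Agent.Helper63.FRT
open Pool.Agent.Helper76.PUR
open Pool.Agent.Helper76.THK (e00 clp clp_bd clp_eq LR relp relp_deg relp_spec relp_root cnt_fc cv)

noncomputable section

variable {S : Sp} {M v q D : ℕ}

/-- the rows, clipped -/
def aU (Q : S.VV M) (f : ∀ k, (S.F k).Ω → Fin q → MvPolynomial (Fin M) ℝ) {K : ℕ → ℝ} (hK : S.Sub K) : S.VV q where
  v := fun k ω j => clp (K k) (MvPolynomial.eval (Q.v k ω) (f k ω j))
  bd := by
    refine ⟨K, hK, ?_⟩
    filter_upwards [hK.1] with k hk ω _ j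
    exact clp_bd hk _

/-- the free coordinates -/
def aS (Q : S.VV M) (E : ∀ k, (S.F k).Ω → (Fin v ⊕ Fin q ≃ Fin M)) : S.VV v where
  v := fun k ω i => Q.v k ω (E k ω (Sum.inl i))
  bd := by
    obtain ⟨K, hK, hQ⟩ := Q.bd
    refine ⟨K, hK, ?_⟩
    filter_upwards [hQ] with k hk ω hω i
    exact hk ω hω _

/-- the cuts -/
def adl (S : Sp) (M D : ℕ) (w : ∀ k, (S.F k).Ω → Fin q → ℝ) (K : ℕ → ℝ) (k : ℕ) (ω : (S.F k).Ω) (j : Fin q) : ℝ :=
  2 ^ (-((1 - w k ω j) * (S.F k).n)) / cA1 M D q (K k)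

/-- the parameters as polynomials -/
def apsi (hvq : v + q = M) (E : Fin v ⊕ Fin q ≃ Fin M) (f : Fin q → MvPolynomial (Fin M) ℝ) :
    Fin M → MvPolynomial (Fin M) ℝ :=
  fun a => Sum.elim (fun i => MvPolynomial.X (E (Sum.inl i))) f ((e00 hvq).symm a)

lemma apsi_inl (hvq : v + q = M) (E : Fin v ⊕ Fin q ≃ Fin M) (f : Fin q → MvPolynomial (Fin M) ℝ) (i : Fin v) :
    apsi hvq E f (e00 hvq (Sum.inl i)) = MvPolynomial.X (E (Sum.inl i)) := by
  unfold apsi
  rw [Equiv.symm_apply_apply]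
  rfl

lemma apsi_inr (hvq : v + q = M) (E : Fin v ⊕ Fin q ≃ Fin M) (f : Fin q → MvPolynomial (Fin M) ℝ) (j : Fin q) :
    apsi hvq E f (e00 hvq (Sum.inr j)) = f j := by
  unfold apsi
  rw [Equiv.symm_apply_apply]
  rfl

lemma all_e00 (hvq : v + q = M) {P : Fin M → Prop} (h1 : ∀ i : Fin v, P (e00 hvq (Sum.inl i)))
    (h2 : ∀ j : Fin q, P (e00 hvq (Sum.inr j))) (a : Fin M) : P a := by
  obtain ⟨s, rfl⟩ := (e00 hvq).surjective a
  rcases s with i | j
  · exact h1 i
  · exact h2 j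

lemma apsi_deg (hvq : v + q = M) (E : Fin v ⊕ Fin q ≃ Fin M) {f : Fin q → MvPolynomial (Fin M) ℝ} (hD : 1 ≤ D)
    (hf : ∀ j, (f j).totalDegree ≤ D) (a : Fin M) : (apsi hvq E f a).totalDegree ≤ D := by
  refine all_e00 hvq (P := fun a => (apsi hvq E f a).totalDegree ≤ D) (fun i => ?_) (fun j => ?_) a
  · rw [apsi_inl, MvPolynomial.totalDegree_X]
    exact hD
  · rw [apsi_inr]
    exact hf j

lemma apsi_det (hvq : v + q = M) (E : Fin v ⊕ Fin q ≃ Fin M) (f : Fin q → MvPolynomial (Fin M) ℝ) (x : Fin M → ℝ) :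
    (jac (apsi hvq E f) x).det ^ 2 = (rmx E f x).det ^ 2 := by
  set G := jac (apsi hvq E f) x with hG
  have h1 : |(G.submatrix (e00 hvq) E).det| = |G.det| := Matrix.abs_det_submatrix_equiv_equiv (e00 hvq) E G
  have h2 : G.submatrix (e00 hvq) E = Matrix.fromBlocks 1 0
      (Matrix.of fun (j : Fin q) (i : Fin v) => MvPolynomial.eval x (MvPolynomial.pderiv (E (Sum.inl i)) (f j)))
      (rmx E f x) := by
    ext s t
    rw [Matrix.submatrix_apply, hG]
    rcases s with i | j
    · show MvPolynomial.eval x (MvPolynomial.pderiv (E t) (apsi hvq E f (e00 hvq (Sum.inl i)))) = _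
      rw [apsi_inl, MvPolynomial.pderiv_X]
      rcases t with i' | j'
      · rw [Matrix.fromBlocks_apply₁₁, Matrix.one_apply]
        by_cases h : i = i'
        · subst h
          simp
        · rw [if_neg h, Pi.single_eq_of_ne (fun h' => h (Sum.inl_injective (E.injective h'))), map_zero]
      · rw [Matrix.fromBlocks_apply₁₂, Matrix.zero_apply,
          Pi.single_eq_of_ne (fun h' => Sum.inl_ne_inr (E.injective h')), map_zero]
    · show MvPolynomial.eval x (MvPolynomial.pderiv (E t) (apsi hvq E f (e00 hvq (Sum.inr j)))) = _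
      rw [apsi_inr]
      rcases t with i' | j'
      · rfl
      · rfl
  rw [← sq_abs, ← h1, h2, Matrix.det_fromBlocks_zero₁₂, Matrix.det_one, one_mul, sq_abs]

/-- the scales -/
def asc (hvq : v + q = M) (r : ℝ) (δ : Fin q → ℝ) : Fin M → ℝ :=
  fun a => Sum.elim (fun _ => r⁻¹) (fun j => (δ j)⁻¹) ((e00 hvq).symm a)

/-- the centers -/
def acn (hvq : v + q = M) (c1 : Fin v → ℝ) (c2 : Fin q → ℝ) : Fin M → ℝ := fun a => Sum.elim c1 c2 ((e00 hvq).symm a)

lemma asc_prod (hvq : v + q = M) (r : ℝ) (δ : Fin q → ℝ) : ∏ a, asc hvq r δ a = r⁻¹ ^ v * ∏ j, (δ j)⁻¹ := by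
  rw [← Equiv.prod_comp (e00 hvq), Fintype.prod_sum_type]
  unfold asc
  simp only [Equiv.symm_apply_apply, Sum.elim_inl, Sum.elim_inr]
  rw [Finset.prod_const, Finset.card_univ, Fintype.card_fin]

section

variable (S M D)
variable (w : ∀ k, (S.F k).Ω → Fin q → ℝ) {K : ℕ → ℝ}

lemma adl_pos (hK1 : ∀ k, 1 ≤ K k) (k : ℕ) (ω : (S.F k).Ω) (j : Fin q) : 0 < adl S M D w K k ω j := by
  have h1 := cA1_one (M := M) (D := D) (q := q) (hK1 k)
  unfold adl
  have : 0 < cA1 M D q (K k) := by linarith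
  positivity

lemma adl_le (hK1 : ∀ k, 1 ≤ K k) (k : ℕ) (ω : (S.F k).Ω) (j : Fin q) (hw : w k ω j ≤ 1) : adl S M D w K k ω j ≤ 1 := by
  have h1 := cA1_one (M := M) (D := D) (q := q) (hK1 k)
  have hn := (S.F k).pos
  unfold adl
  rw [div_le_one (by linarith)]
  refine le_trans ?_ h1
  apply Real.rpow_le_one_of_one_le_of_nonpos (by norm_num)
  nlinarith

lemma adl_inv (k : ℕ) (ω : (S.F k).Ω) (j : Fin q) :
    (adl S M D w K k ω j)⁻¹ = cA1 M D q (K k) * 2 ^ ((1 - w k ω j) * (S.F k).n) := by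
  unfold adl
  rw [inv_div, Real.rpow_neg (by norm_num), div_inv_eq_mul]

lemma adl_mul (hK1 : ∀ k, 1 ≤ K k) (k : ℕ) (ω : (S.F k).Ω) (j : Fin q) :
    adl S M D w K k ω j * cA1 M D q (K k) = S.dl (1 - w k ω j) k := by
  have h1 := cA1_one (M := M) (D := D) (q := q) (hK1 k)
  have h2 : cA1 M D q (K k) ≠ 0 := by linarith
  have h3 : S.dl (1 - w k ω j) k = 2 ^ (-((1 - w k ω j) * (S.F k).n)) := rfl
  unfold adl
  rw [div_mul_cancel₀ _ h2, h3]

lemma adl_dl (hK1 : ∀ k, 1 ≤ K k) (k : ℕ) (ω : (S.F k).Ω) (j : Fin q) :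
    adl S M D w K k ω j ≤ S.dl (1 - w k ω j) k := by
  rw [← adl_mul S M D w hK1]
  exact le_mul_of_one_le_right (adl_pos S M D w hK1 k ω j).le (cA1_one (hK1 k))

lemma adl_ev (hK1 : ∀ k, 1 ≤ K k) (hw : ∀ᶠ k in UF, ∀ ω, (S.F k).μ ω ≠ 0 → ∀ j, 0 ≤ w k ω j ∧ w k ω j ≤ 1) :
    ∀ᶠ k in UF, ∀ ω, (S.F k).μ ω ≠ 0 → ∀ j, 0 < adl S M D w K k ω j ∧ adl S M D w K k ω j ≤ 1 := by
  filter_upwards [hw] with k hk ω hω j
  exact ⟨adl_pos S M D w hK1 k ω j, adl_le S M D w hK1 k ω j (hk ω hω j).2⟩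

end

/-- the partition of the coarse data -/
def aWk (Q : S.VV M) (E : ∀ k, (S.F k).Ω → (Fin v ⊕ Fin q ≃ Fin M)) (U : S.VV q) (δ : ∀ k, (S.F k).Ω → Fin q → ℝ) :
    ∀ k, Setoid (S.F k).Ω := fun k => Setoid.ker ((aS Q E).cellv 1 k) ⊓ Setoid.ker (rfo U δ k)

/-- nodes of the cell -/
lemma node_near (x : Fin M → ℝ) {r : ℝ} (hr : 0 ≤ r) (l : Fin M → Fin (D + 1)) (b : Fin M) :
    |nodp D x r l b - x b| ≤ r := by
  show |x b + r * nod D (l b) - x b| ≤ r
  have e1 : x b + r * nod D (l b) - x b = r * nod D (l b) := by ring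
  rw [e1, abs_mul, abs_of_nonneg hr, abs_of_nonneg (nod_nonneg D _)]
  exact mul_le_of_le_one_right hr (nod_le D _ (Nat.lt_succ_iff.mp (l b).2))

/-- variation on the cell -/
lemma var_cell (f : MvPolynomial (Fin M) ℝ) (x y : Fin M → ℝ) {r G : ℝ} (hr : 0 ≤ r) (hy : ∀ i, |y i - x i| ≤ r)
    (hG : ∀ z : Fin M → ℝ, (∀ i, |z i - x i| ≤ r) → ∀ a, |MvPolynomial.eval z (MvPolynomial.pderiv a f)| ≤ G) :
    |MvPolynomial.eval y f - MvPolynomial.eval x f| ≤ M * (r * G) := by
  obtain ⟨t, ht0, ht1, h⟩ := mvt f x y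
  rw [h]
  have h1 : ∀ b ∈ Finset.univ, |(y b - x b) *
      MvPolynomial.eval (fun a => x a + t * (y a - x a)) (MvPolynomial.pderiv b f)| ≤ r * G := by
    intro b _
    rw [abs_mul]
    apply mul_le_mul (hy b) _ (abs_nonneg _) hr
    apply hG
    intro i
    have e1 : x i + t * (y i - x i) - x i = t * (y i - x i) := by ring
    rw [e1, abs_mul, abs_of_pos ht0]
    have := hy i
    have := abs_nonneg (y i - x i)
    nlinarith
  have h2 := (Finset.abs_sum_le_sum_abs (fun b => (y b - x b) *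
    MvPolynomial.eval (fun a => x a + t * (y a - x a)) (MvPolynomial.pderiv b f)) Finset.univ).trans
    (Finset.sum_le_card_nsmul _ _ _ h1)
  rwa [Finset.card_univ, Fintype.card_fin, nsmul_eq_mul] at h2

variable {V : ∀ k, Setoid (S.F k).Ω} {Q : S.VV M} {E : ∀ k, (S.F k).Ω → (Fin v ⊕ Fin q ≃ Fin M)}
    {f : ∀ k, (S.F k).Ω → Fin q → MvPolynomial (Fin M) ℝ} {w : ∀ k, (S.F k).Ω → Fin q → ℝ} {K : ℕ → ℝ} {A : ∀ k, (S.F k).Ω → Prop}

/-- ENTROPY OF THE COARSE DATA -/
theorem coarse_ent (hvq : v + q = M) (hD : 1 ≤ D) (x : RowsF V Q D E f w) (y : RowsK V Q D E f w K A) {ε : ℝ}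
    (hε : 0 < ε) : ∀ᶠ k in UF, (M - ε) * (S.F k).n ≤
      (S.F k).e (aWk Q E (aU Q f y.subK) (adl S M D w K) k) (V k ⊓ (S.F k).Z) +
        (S.F k).n * ∑ ω, (S.F k).μ ω * ∑ j, w k ω j := by
  set U := aU Q f y.subK with hU
  set δ := adl S M D w K with hδd
  set W := aWk Q E U δ with hW
  have hδ : ∀ k ω j, 0 < δ k ω j := fun k ω j => adl_pos S M D w y.K1 k ω j
  set t : ∀ k, (S.F k).Ω → Fin M → ℝ := fun k ω => asc hvq (S.dl 1 k) (δ k ω) with ht
  set c : ∀ k, (S.F k).Ω → Fin M → ℝ := fun k ω => acn hvq (fun i => S.dl 1 k * (aS Q E).cellv 1 k ω i)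
    (fun j => δ k ω j * rfo U δ k ω j) with hc
  have hcA := fun k => cA1_one (M := M) (D := D) (q := q) (y.K1 k)
  set K0 : ℕ → ℝ := fun k => nn M D * Fintype.card (Mon M D) * (K k + 1) ^ (2 * D) +
      Fintype.card (Fin M → Fin (D + 1)) * (M * (cA1 M D q (K k) * (M * K k) + 2) ^ 2) + K k ^ 2 with hK0
  have hnn := nn_one M D
  have hS : S.Sub K0 := by
    refine (Sp.Sub.add (Sp.Sub.mul (S.Sub_const (by positivity)) (Sub_pow' (y.subK.add (S.Sub_const zero_le_one)) _))
      (Sp.Sub.mul (S.Sub_const (by positivity)) (Sp.Sub.mul (S.Sub_const (by positivity))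
        (Sub_pow' (((sub_cA1 y.subK).mul ((S.Sub_const (Nat.cast_nonneg M)).mul y.subK)).add
          (S.Sub_const zero_le_two)) _)))).add (Sub_pow' y.subK 2)
  have h1 := cnt_fc (s := 1) hD Q zero_le_one (fun k => V k ⊓ W k)
    (fun k ω => Brt D (t k ω) (apsi hvq (E k ω) (f k ω)) (c k ω))
    (Eventually.of_forall fun k ω _ => ⟨Brt_symm _ _ _, Brt_one _ _ _⟩) (by
      filter_upwards [x.msE, x.msf, x.msw] with k h1 h2 h3 ω ω' a b z d
      have e1 := h1 ω ω' a b z d.1
      have e2 := h2 ω ω' a b z d.1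
      have e0 := h3 ω ω' a b z d.1
      have e3 : (aS Q E).cellv 1 k ω = (aS Q E).cellv 1 k ω' := d.2.1
      have e4 : rfo U δ k ω = rfo U δ k ω' := d.2.2
      have e5 : δ k ω = δ k ω' := by
        simp only [hδd]
        unfold adl
        rw [e0]
      simp only [hc, ht]
      rw [e1, e2, e3, e4, e5]) A y.tA K0 hS (fun _ _ => (M : ℝ)) (Eventually.of_forall fun k ω _ =>
        ⟨Nat.cast_nonneg M, by rw [mul_one]⟩) (by
      filter_upwards [x.deg, y.qb, y.bd, y.der] with k a1 a2 a3 a4 ω hω hA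
      have hd := S.dl_pos 1 k
      have hd1 := dl_one_le S k
      have hKk := y.K1 k
      have hn := (S.F k).pos
      have h4 := Brt_phi (t k ω) (apsi hvq (E k ω) (f k ω)) (c k ω) (apsi_deg hvq (E k ω) hD (a1 ω hω))
        (r := S.dl 1 k) (R := K k + 1) (B := (cA1 M D q (K k) * (M * K k) + 2) ^ 2) hd.le (by linarith) (Q.v k ω)
        (fun i => add_le_add (a2 ω hω i) hd1) (fun a l => by
          rw [← sq_abs]
          apply pow_le_pow_left₀ (abs_nonneg _)
          have hcp : 0 ≤ cA1 M D q (K k) * (M * K k) := by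
            have := hcA k
            positivity
          refine all_e00 hvq (P := fun a => |t k ω a * (MvPolynomial.eval (nodp D (Q.v k ω) (S.dl 1 k) l)
            (apsi hvq (E k ω) (f k ω) a) - c k ω a)| ≤ cA1 M D q (K k) * (M * K k) + 2) (fun i => ?_) (fun j => ?_) a
          · have e1 : t k ω (e00 hvq (Sum.inl i)) = (S.dl 1 k)⁻¹ := by
              simp only [ht]
              unfold asc
              rw [Equiv.symm_apply_apply]
              rfl
            have e2 : c k ω (e00 hvq (Sum.inl i)) = S.dl 1 k * (aS Q E).cellv 1 k ω i := by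
              simp only [hc]
              unfold acn
              rw [Equiv.symm_apply_apply]
              rfl
            rw [apsi_inl, e1, e2, MvPolynomial.eval_X, abs_mul, abs_of_pos (inv_pos.mpr hd), inv_mul_le_iff₀ hd]
            have h5 := node_near (D := D) (Q.v k ω) hd.le l (E k ω (Sum.inl i))
            have h6 : |Q.v k ω (E k ω (Sum.inl i)) - S.dl 1 k * (aS Q E).cellv 1 k ω i| ≤ S.dl 1 k :=
              Pool.Agent.Helper76.DIM.near_floor (Q.v k ω (E k ω (Sum.inl i))) (S.dl 1 k) hd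
            have h7 := abs_add_le (nodp D (Q.v k ω) (S.dl 1 k) l (E k ω (Sum.inl i)) - Q.v k ω (E k ω (Sum.inl i)))
              (Q.v k ω (E k ω (Sum.inl i)) - S.dl 1 k * (aS Q E).cellv 1 k ω i)
            rw [sub_add_sub_cancel] at h7
            nlinarith
          · have e1 : t k ω (e00 hvq (Sum.inr j)) = (δ k ω j)⁻¹ := by
              simp only [ht]
              unfold asc
              rw [Equiv.symm_apply_apply]
              rfl
            have e2 : c k ω (e00 hvq (Sum.inr j)) = δ k ω j * rfo U δ k ω j := by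
              simp only [hc]
              unfold acn
              rw [Equiv.symm_apply_apply]
              rfl
            rw [apsi_inr, e1, e2, abs_mul, abs_of_pos (inv_pos.mpr (hδ k ω j)), inv_mul_le_iff₀ (hδ k ω j)]
            have hUe : U.v k ω j = MvPolynomial.eval (Q.v k ω) (f k ω j) := clp_eq (a3 ω hω hA j)
            have h6 : |U.v k ω j - δ k ω j * rfo U δ k ω j| ≤ δ k ω j :=
              Pool.Agent.Helper76.DIM.near_floor (U.v k ω j) (δ k ω j) (hδ k ω j)
            rw [hUe] at h6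
            have h5 := var_cell (f k ω j) (Q.v k ω) (nodp D (Q.v k ω) (S.dl 1 k) l) hd.le
              (fun i => node_near (D := D) (Q.v k ω) hd.le l i) (fun z hz a => a4 ω hω hA z hz j a)
            have h7 := abs_add_le (MvPolynomial.eval (nodp D (Q.v k ω) (S.dl 1 k) l) (f k ω j) -
              MvPolynomial.eval (Q.v k ω) (f k ω j)) (MvPolynomial.eval (Q.v k ω) (f k ω j) - δ k ω j * rfo U δ k ω j)
            rw [sub_add_sub_cancel] at h7
            have h8 : S.dl 1 k * (K k * 2 ^ (w k ω j * (S.F k).n)) = δ k ω j * (cA1 M D q (K k) * K k) := by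
              have e3 : S.dl 1 k * 2 ^ (w k ω j * (S.F k).n) = 2 ^ (-((1 - w k ω j) * (S.F k).n)) := by
                unfold Sp.dl
                rw [← Real.rpow_add (by norm_num)]
                congr 1
                ring
              have e4 : δ k ω j * cA1 M D q (K k) = 2 ^ (-((1 - w k ω j) * (S.F k).n)) := by
                simp only [hδd]
                unfold adl
                have := hcA k
                field_simp
              calc S.dl 1 k * (K k * 2 ^ (w k ω j * (S.F k).n)) = S.dl 1 k * 2 ^ (w k ω j * (S.F k).n) * K k := by ring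
                _ = δ k ω j * cA1 M D q (K k) * K k := by rw [e3, e4]
                _ = _ := by ring
            rw [h8] at h5
            have h9 := hδ k ω j
            nlinarith)
      have h10 : 0 ≤ K k ^ 2 := sq_nonneg _
      simp only [hK0]
      linarith) (by
      filter_upwards [x.deg, y.det] with k a1 a2 ω hω hA
      have hd := S.dl_pos 1 k
      have hKk := y.K1 k
      have hn := (S.F k).pos
      have h4 := Brt_GQ (t k ω) (apsi hvq (E k ω) (f k ω)) (c k ω) (apsi_deg hvq (E k ω) hD (a1 ω hω)) (S.dl 1 k) (Q.v k ω)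
      rw [apsi_det] at h4
      have h5 : (2 : ℝ) ^ ((M - ∑ j, w k ω j) * (S.F k).n) ≤ ∏ a, t k ω a := by
        simp only [ht]
        rw [asc_prod]
        have e1 : (2 : ℝ) ^ ((M - ∑ j, w k ω j) * (S.F k).n) = (S.dl 1 k)⁻¹ ^ v * ∏ j : Fin q, 2 ^ ((1 - w k ω j) * (S.F k).n) := by
          rw [dl_inv, one_mul, ← Real.rpow_natCast, ← Real.rpow_mul (by norm_num),
            ← Real.rpow_sum_of_pos (by norm_num), ← Real.rpow_add (by norm_num)]
          congr 1
          rw [← Finset.sum_mul, Finset.sum_sub_distrib, Finset.sum_const, Finset.card_univ, Fintype.card_fin, nsmul_eq_mul,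
            ← hvq]
          push_cast
          ring
        rw [e1]
        apply mul_le_mul_of_nonneg_left _ (by positivity)
        apply Finset.prod_le_prod (fun j _ => by positivity)
        intro j _
        rw [adl_inv]
        have := hcA k
        have h6 : (0 : ℝ) < 2 ^ ((1 - w k ω j) * (S.F k).n) := by positivity
        nlinarith
      have h6 : (2 : ℝ) ^ (M * (S.F k).n) ≤ K k * ((∏ a, t k ω a) * |(rmx (E k ω) (f k ω) (Q.v k ω)).det|) := by
        have e1 : (2 : ℝ) ^ (M * (S.F k).n) = 2 ^ ((M - ∑ j, w k ω j) * (S.F k).n) * 2 ^ ((∑ j, w k ω j) * (S.F k).n) := by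
          rw [← Real.rpow_add (by norm_num)]
          congr 1
          ring
        rw [e1]
        have h7 := mul_le_mul h5 (a2 ω hω hA) (by positivity) (le_trans (by positivity) h5)
        refine h7.trans (le_of_eq ?_)
        ring
      have h7 : (2 : ℝ) ^ (2 * (M : ℝ) * (S.F k).n) = (2 ^ (M * (S.F k).n)) ^ 2 := by
        rw [← Real.rpow_natCast, ← Real.rpow_mul (by norm_num)]
        congr 1
        push_cast
        ring
      rw [h7]
      have h8 := pow_le_pow_left₀ (by positivity) h6 2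
      refine h8.trans ?_
      have h9 : (K k * ((∏ a, t k ω a) * |(rmx (E k ω) (f k ω) (Q.v k ω)).det|)) ^ 2 =
          K k ^ 2 * ((∏ a, t k ω a) ^ 2 * (rmx (E k ω) (f k ω) (Q.v k ω)).det ^ 2) := by
        rw [mul_pow, mul_pow, sq_abs]
      rw [h9]
      have h10 : K k ^ 2 ≤ K0 k := by
        simp only [hK0]
        have h11 : (0 : ℝ) ≤ nn M D * Fintype.card (Mon M D) * (K k + 1) ^ (2 * D) := by positivity
        have h12 : (0 : ℝ) ≤ Fintype.card (Fin M → Fin (D + 1)) * (M * (cA1 M D q (K k) * (M * K k) + 2) ^ 2) := by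
          positivity
        linarith
      exact mul_le_mul h10 h4 (by positivity) (le_trans (sq_nonneg _) h10)) (show 0 < ε / 2 by linarith)
  filter_upwards [h1, x.fu (ε / 2) (by linarith)] with k a b
  have hn := (S.F k).pos
  have e1 : ∑ ω, (S.F k).μ ω * (M : ℝ) = M := by
    rw [← Finset.sum_mul]
    have : ∑ ω, (S.F k).μ ω = 1 := (S.F k).ms
    rw [this, one_mul]
  rw [e1, mul_one] at a
  have h3 := (S.F k).e_triangle (Setoid.ker (Q.cellv 1 k)) (W k) (V k ⊓ (S.F k).Z)
  have e2 : W k ⊓ (V k ⊓ (S.F k).Z) = V k ⊓ W k ⊓ (S.F k).Z := by ac_rfl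
  rw [e2] at h3
  nlinarith

end

end Pool.Agent.Helper76.ADP
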