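import Pool.Agent.Helper76.ADP.Ind
import Pool.Agent.Helper81.CP2.Rw

/-! PREFIX FORMS GIVE ROWS: forms `A_j` in the coordinates `tau_0, .., tau_j` (`v <= j`), known to the partition, small at the
point, with `(1 + J)_jj >= 2 ^ (2 (w_j - eta) n)` and `tr J <= 2 ^ (2 (w_j + eta) n)`: the best rows. -/

set_option autoImplicit false

namespace Pool.Agent.Helper76.ADP

open Finset Filter Topology Matrix Metric Pool.Agent.Helper69.RK Pool.Agent.Helper31.EC Pool.Agent.Helper31.EC.Sp
open Pool.Agent.Helper95.LF (PdM)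
open Pool.Agent.Helper40.EL
open Pool.Agent.Helper3.LF Pool.Agent.Helper84.MT
open Pool.Agent.Helper89.LX (dot_self_nonneg sum_mul_le dl_one_le Sub_pow')
open Pool.Agent.Helper76.RL (fam fam_deg jac Rw trp pderiv_trp eval_trp)
open Pool.Agent.Helper76.DIM (pck fac fac_spec ent_fin)
open Pool.Agent.Helper76.PUR (jac_X jac_fam rows_bd cW cW_one nRw)
open Pool.Agent.Helper76.THK (e00 nodp_zero)
open Pool.Agent.Helper81.CP2 (pre)

noncomputable section

variable {m D : ℕ} {A : Matrix (Mon m D) (Mon m D) ℝ}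

/-- the best row in a direction -/
lemma row_sel (hA : PdM A) (r : ℝ) (x : Fin m → ℝ) (l : Fin m) : ∃ I : Rw m D,
    (1 + Jq r A x) l l ≤ nRw m D * (MvPolynomial.eval x (MvPolynomial.pderiv l (fam (fac A) r I))) ^ 2 := by
  classical
  have e1 : (1 + Jq r A x) l l = ∑ I : Rw m D, (MvPolynomial.eval x (MvPolynomial.pderiv l (fam (fac A) r I))) ^ 2 := by
    have h1 := jac_fam (fac A) r x
    rw [← fac_spec hA] at h1
    rw [← h1, Matrix.mul_apply]
    refine Finset.sum_congr rfl fun I _ => ?_
    rw [Matrix.transpose_apply, sq]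
    rfl
  obtain ⟨I, -, hI⟩ := Finset.exists_max_image (Finset.univ : Finset (Rw m D))
    (fun I => (MvPolynomial.eval x (MvPolynomial.pderiv l (fam (fac A) r I))) ^ 2) ⟨Sum.inr l, Finset.mem_univ _⟩
  refine ⟨I, ?_⟩
  rw [e1]
  refine (Finset.sum_le_card_nsmul _ _ _ hI).trans (le_of_eq ?_)
  rw [Finset.card_univ, nsmul_eq_mul]
  rfl

/-- constant of the gradient -/
def cG (m D : ℕ) : ℝ := Cu D * 2 ^ D * Cm m D + 1

lemma cG_one (m D : ℕ) : 1 ≤ cG m D := by
  unfold cG
  have h1 := Cu_one D
  have h2 := Cm_one m D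
  have : 0 ≤ Cu D * 2 ^ D * Cm m D := by positivity
  linarith

/-- the gradient of the rows on the cell -/
lemma row_grad (hA : PdM A) {r : ℝ} (hr : 0 < r) {x y : Fin m → ℝ} (hy : ∀ i, |y i - x i| ≤ r) {G : ℝ} (hG1 : 1 ≤ G)
    (hG : (Jq r A x).trace ≤ G ^ 2) (I : Rw m D) (a : Fin m) :
    |MvPolynomial.eval y (MvPolynomial.pderiv a (fam (fac A) r I))| ≤ cG m D * G := by
  rcases I with ⟨k, j⟩ | b
  · set p := MvPolynomial.pderiv a (pol (fac A k)) with hp
    have hnode : ∀ j' : Fin m → Fin (D + 1), |MvPolynomial.eval (nodp D x r j') p| ≤ G := by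
      intro j'
      apply abs_le_of_sq_le_sq _ (by linarith)
      refine le_trans ?_ hG
      have h1 : ∀ (b : Fin m) (j' : Fin m → Fin (D + 1)), dd b (nodp D x r j') ⬝ᵥ (A *ᵥ dd b (nodp D x r j')) =
          ∑ k', (MvPolynomial.eval (nodp D x r j') (MvPolynomial.pderiv b (pol (fac A k')))) ^ 2 := by
        intro b j'
        conv_lhs => rw [fac_spec hA]
        rw [← Matrix.mulVec_mulVec, Matrix.dotProduct_mulVec, Matrix.vecMul_transpose]
        unfold dotProduct
        refine Finset.sum_congr rfl fun k' _ => ?_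
        rw [eval_pderiv_pol, ← sq]
        rfl
      have h2 : (Jq r A x).trace = ∑ b, ∑ j' : Fin m → Fin (D + 1), ∑ k',
          (MvPolynomial.eval (nodp D x r j') (MvPolynomial.pderiv b (pol (fac A k')))) ^ 2 := by
        unfold Matrix.trace
        refine Finset.sum_congr rfl fun b _ => ?_
        rw [Matrix.diag_apply, Jq_apply]
        exact Finset.sum_congr rfl fun j' _ => h1 b j'
      rw [h2]
      have h3 : ∀ b, 0 ≤ ∑ j' : Fin m → Fin (D + 1), ∑ k',
          (MvPolynomial.eval (nodp D x r j') (MvPolynomial.pderiv b (pol (fac A k')))) ^ 2 := fun b =>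
        Finset.sum_nonneg fun j' _ => Finset.sum_nonneg fun k' _ => sq_nonneg _
      have h4 := Finset.single_le_sum (fun b _ => h3 b) (Finset.mem_univ a)
      have h5 := Finset.single_le_sum (f := fun j' : Fin m → Fin (D + 1) => ∑ k',
          (MvPolynomial.eval (nodp D x r j') (MvPolynomial.pderiv a (pol (fac A k')))) ^ 2)
        (fun j' _ => Finset.sum_nonneg fun k' _ => sq_nonneg _) (Finset.mem_univ j')
      have h6 := Finset.single_le_sum (f := fun k' : Mon m D =>
          (MvPolynomial.eval (nodp D x r j') (MvPolynomial.pderiv a (pol (fac A k')))) ^ 2)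
        (fun k' _ => sq_nonneg _) (Finset.mem_univ k)
      exact h6.trans (h5.trans h4)
    have e1 : MvPolynomial.eval y (MvPolynomial.pderiv a (fam (fac A) r (Sum.inl (k, j)))) =
        MvPolynomial.eval (nodp D y r j) p := by
      show MvPolynomial.eval y (MvPolynomial.pderiv a (trp D r j (pol (fac A k)))) = _
      rw [pderiv_trp, eval_trp]
    rw [e1]
    have h1 := cell_growth D p (pderiv_tdeg _ (pol_deg _) a) x r 2 G hr (by norm_num) hnode (nodp D y r j) (fun i => by
      have h2 := node_near (D := D) y hr.le j i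
      have h3 := hy i
      have h4 := abs_add_le (nodp D y r j i - y i) (y i - x i)
      rw [sub_add_sub_cancel] at h4
      linarith)
    refine h1.trans ?_
    unfold cG
    have h2 : Cu D * 2 ^ D * (Cm m D * G) = Cu D * 2 ^ D * Cm m D * G := by ring
    rw [h2]
    nlinarith
  · have h1 : |MvPolynomial.eval y (MvPolynomial.pderiv a (fam (fac A) r (Sum.inr b)))| ≤ 1 := by
      show |MvPolynomial.eval y (MvPolynomial.pderiv a (MvPolynomial.X b))| ≤ 1
      rw [MvPolynomial.pderiv_X]
      by_cases h : b = a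
      · subst h
        simp
      · rw [Pi.single_eq_of_ne h, map_zero, abs_zero]
        exact zero_le_one
    have h2 := cG_one m D
    nlinarith

end

end Pool.Agent.Helper76.ADP
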