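import Pool.Agent.Helper76.ADP.Frd
import Pool.Agent.Helper76.THK.Thl

/-! THE ADAPTED LEAF, part 1: rows `f_j` of gradient size `2 ^ (w_j n)` with a large minor; one tame constant; the mixed
parameters (free coordinates, rows cut at `2 ^ (-(1 - w_j) n)`); their sizes. -/

set_option autoImplicit false

namespace Pool.Agent.Helper76.ADP

open Finset Filter Topology Matrix Metric Pool.Agent.Helper69.RK Pool.Agent.Helper31.EC Pool.Agent.Helper31.EC.Sp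
open Pool.Agent.Helper95.LF (PdM)
open Pool.Agent.Helper40.EL
open Pool.Agent.Helper3.LF Pool.Agent.Helper84.MT
open Pool.Agent.Helper89.LX (dot_self_nonneg sum_mul_le dl_one_le Sub_pow')
open Pool.Agent.Helper76.RL (jac)
open Pool.Agent.Helper63.FRT
open Pool.Agent.Helper76.PUR
open Pool.Agent.Helper76.THK (e00 clp clp_bd clp_eq LR relp relp_deg relp_spec relp_root cnt_fc cv)

noncomputable section

variable {S : Sp} {M v q D : ℕ}

lemma sub_congr {K L : ℕ → ℝ} (hK : S.Sub K) (h : ∀ᶠ k in UF, K k = L k) : S.Sub L := by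
  refine ⟨?_, ?_⟩
  · filter_upwards [hK.1, h] with k h1 h2
    rw [← h2]
    exact h1
  · refine hK.2.congr' ?_
    filter_upwards [h] with k h2
    rw [h2]

/-- the minor of the rows in the bound columns -/
def rmx (E : Fin v ⊕ Fin q ≃ Fin M) (f : Fin q → MvPolynomial (Fin M) ℝ) (x : Fin M → ℝ) : Matrix (Fin q) (Fin q) ℝ :=
  Matrix.of fun j i => MvPolynomial.eval x (MvPolynomial.pderiv (E (Sum.inr i)) (f j))

/-- THE ROWS: `q` polynomials of degree `≤ D`, known to `V`, small at the point, with gradient of size `2 ^ (w_j n)` on the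
cell and a minor `2 ^ ((sum w) n)` in the columns `E ∘ inr`; the exponents `w_j` are functions of the base and `V`; the
cells of the point over `V` have the rate `M - E (sum w)` -/
structure RowsF (V : ∀ k, Setoid (S.F k).Ω) (Q : S.VV M) (D : ℕ) (E : ∀ k, (S.F k).Ω → (Fin v ⊕ Fin q ≃ Fin M))
    (f : ∀ k, (S.F k).Ω → Fin q → MvPolynomial (Fin M) ℝ) (w : ∀ k, (S.F k).Ω → Fin q → ℝ) : Prop where
  w01 : ∀ᶠ k in UF, ∀ ω, (S.F k).μ ω ≠ 0 → ∀ j, 0 ≤ w k ω j ∧ w k ω j ≤ 1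
  deg : ∀ᶠ k in UF, ∀ ω, (S.F k).μ ω ≠ 0 → ∀ j, (f k ω j).totalDegree ≤ D
  msE : ∀ᶠ k in UF, ∀ ω ω', (S.F k).μ ω ≠ 0 → (S.F k).μ ω' ≠ 0 → (S.F k).Z ω ω' → V k ω ω' → E k ω = E k ω'
  msf : ∀ᶠ k in UF, ∀ ω ω', (S.F k).μ ω ≠ 0 → (S.F k).μ ω' ≠ 0 → (S.F k).Z ω ω' → V k ω ω' → f k ω = f k ω'
  msw : ∀ᶠ k in UF, ∀ ω ω', (S.F k).μ ω ≠ 0 → (S.F k).μ ω' ≠ 0 → (S.F k).Z ω ω' → V k ω ω' → w k ω = w k ω'
  bd : ∀ η : ℝ, 0 < η → Typ (fun k ω => ∀ j, |MvPolynomial.eval (Q.v k ω) (f k ω j)| ≤ 2 ^ (η * (S.F k).n))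
  der : ∀ η : ℝ, 0 < η → Typ (fun k ω => ∀ y : Fin M → ℝ, (∀ i, |y i - Q.v k ω i| ≤ S.dl 1 k) → ∀ j a,
    |MvPolynomial.eval y (MvPolynomial.pderiv a (f k ω j))| ≤ 2 ^ ((w k ω j + η) * (S.F k).n))
  det : ∀ η : ℝ, 0 < η → Typ (fun k ω => 2 ^ ((∑ j, w k ω j - η) * (S.F k).n) ≤ |(rmx (E k ω) (f k ω) (Q.v k ω)).det|)
  fu : ∀ ε : ℝ, 0 < ε → ∀ᶠ k in UF, (M - ε) * (S.F k).n ≤
    (S.F k).e (Setoid.ker (Q.cellv 1 k)) (V k ⊓ (S.F k).Z) + (S.F k).n * ∑ ω, (S.F k).μ ω * ∑ j, w k ω j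

/-- one tame constant -/
structure RowsK (V : ∀ k, Setoid (S.F k).Ω) (Q : S.VV M) (D : ℕ) (E : ∀ k, (S.F k).Ω → (Fin v ⊕ Fin q ≃ Fin M))
    (f : ∀ k, (S.F k).Ω → Fin q → MvPolynomial (Fin M) ℝ) (w : ∀ k, (S.F k).Ω → Fin q → ℝ) (K : ℕ → ℝ)
    (A : ∀ k, (S.F k).Ω → Prop) : Prop where
  K1 : ∀ k, 1 ≤ K k
  subK : S.Sub K
  tA : Typ A
  qb : ∀ᶠ k in UF, ∀ ω, (S.F k).μ ω ≠ 0 → ∀ i, |Q.v k ω i| ≤ K k
  bd : ∀ᶠ k in UF, ∀ ω, (S.F k).μ ω ≠ 0 → A k ω → ∀ j, |MvPolynomial.eval (Q.v k ω) (f k ω j)| ≤ K k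
  der : ∀ᶠ k in UF, ∀ ω, (S.F k).μ ω ≠ 0 → A k ω → ∀ y : Fin M → ℝ, (∀ i, |y i - Q.v k ω i| ≤ S.dl 1 k) → ∀ j a,
    |MvPolynomial.eval y (MvPolynomial.pderiv a (f k ω j))| ≤ K k * 2 ^ (w k ω j * (S.F k).n)
  det : ∀ᶠ k in UF, ∀ ω, (S.F k).μ ω ≠ 0 → A k ω →
    2 ^ ((∑ j, w k ω j) * (S.F k).n) ≤ K k * |(rmx (E k ω) (f k ω) (Q.v k ω)).det|

theorem exists_K {V : ∀ k, Setoid (S.F k).Ω} {Q : S.VV M} {E : ∀ k, (S.F k).Ω → (Fin v ⊕ Fin q ≃ Fin M)}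
    {f : ∀ k, (S.F k).Ω → Fin q → MvPolynomial (Fin M) ℝ} {w : ∀ k, (S.F k).Ω → Fin q → ℝ} (x : RowsF V Q D E f w) :
    ∃ (K : ℕ → ℝ) (A : ∀ k, (S.F k).Ω → Prop), RowsK V Q D E f w K A := by
  obtain ⟨Kq, hKq, hQ⟩ := Q.bd
  obtain ⟨e1, he1, he1p, hT1⟩ := typ_diag (S := S) (fun η k ω => ∀ j, |MvPolynomial.eval (Q.v k ω) (f k ω j)| ≤
    2 ^ (η * (S.F k).n)) x.bd
  obtain ⟨e2, he2, he2p, hT2⟩ := typ_diag (S := S) (fun η k ω => ∀ y : Fin M → ℝ, (∀ i, |y i - Q.v k ω i| ≤ S.dl 1 k) →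
    ∀ j a, |MvPolynomial.eval y (MvPolynomial.pderiv a (f k ω j))| ≤ 2 ^ ((w k ω j + η) * (S.F k).n)) x.der
  obtain ⟨e3, he3, he3p, hT3⟩ := typ_diag (S := S) (fun η k ω => 2 ^ ((∑ j, w k ω j - η) * (S.F k).n) ≤
    |(rmx (E k ω) (f k ω) (Q.v k ω)).det|) x.det
  have hp : ∀ (e : ℕ → ℝ), Tendsto e UF (𝓝 0) → (∀ k, 0 < e k) → S.Sub (fun k => 2 ^ (e k * (S.F k).n)) :=
    fun e h1 h2 => Sub_pow_two h1 (Eventually.of_forall fun k => (h2 k).le)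
  set K : ℕ → ℝ := fun k => 2 ^ (e1 k * (S.F k).n) + 2 ^ (e2 k * (S.F k).n) + 2 ^ (e3 k * (S.F k).n) + (|Kq k| + 1) with hK
  have hKq' : S.Sub (fun k => |Kq k|) := by
    refine sub_congr hKq ?_
    filter_upwards [hKq.1] with k hk
    exact (abs_of_nonneg hk).symm
  have h1 : ∀ k, (0 : ℝ) < 2 ^ (e1 k * (S.F k).n) := fun k => by positivity
  have h2 : ∀ k, (0 : ℝ) < 2 ^ (e2 k * (S.F k).n) := fun k => by positivity
  have h3 : ∀ k, (0 : ℝ) < 2 ^ (e3 k * (S.F k).n) := fun k => by positivity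
  refine ⟨K, fun k ω => (∀ j, |MvPolynomial.eval (Q.v k ω) (f k ω j)| ≤ 2 ^ (e1 k * (S.F k).n)) ∧
    (∀ y : Fin M → ℝ, (∀ i, |y i - Q.v k ω i| ≤ S.dl 1 k) →
    ∀ j a, |MvPolynomial.eval y (MvPolynomial.pderiv a (f k ω j))| ≤ 2 ^ ((w k ω j + e2 k) * (S.F k).n)) ∧
    2 ^ ((∑ j, w k ω j - e3 k) * (S.F k).n) ≤ |(rmx (E k ω) (f k ω) (Q.v k ω)).det|, ?_, ?_, ?_, ?_, ?_, ?_, ?_⟩
  · intro k
    have := h1 k
    have := h2 k
    have := h3 k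
    have := abs_nonneg (Kq k)
    simp only [hK]
    linarith
  · exact (((hp e1 he1 he1p).add (hp e2 he2 he2p)).add (hp e3 he3 he3p)).add (hKq'.add (S.Sub_const zero_le_one))
  · exact hT1.and (hT2.and hT3)
  · filter_upwards [hQ] with k hk ω hω i
    refine (hk ω hω i).trans ?_
    have := h1 k
    have := h2 k
    have := h3 k
    have := le_abs_self (Kq k)
    simp only [hK]
    linarith
  · refine Eventually.of_forall fun k ω _ h j => (h.1 j).trans ?_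
    have := h1 k
    have := h2 k
    have := h3 k
    have := abs_nonneg (Kq k)
    simp only [hK]
    linarith
  · refine Eventually.of_forall fun k ω _ h y hy j a => (h.2.1 y hy j a).trans ?_
    have e4 : (2 : ℝ) ^ ((w k ω j + e2 k) * (S.F k).n) = 2 ^ (e2 k * (S.F k).n) * 2 ^ (w k ω j * (S.F k).n) := by
      rw [← Real.rpow_add (by norm_num)]
      congr 1
      ring
    rw [e4]
    apply mul_le_mul_of_nonneg_right _ (by positivity)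
    have := h1 k
    have := h2 k
    have := h3 k
    have := abs_nonneg (Kq k)
    simp only [hK]
    linarith
  · refine Eventually.of_forall fun k ω _ h => ?_
    have e4 : (2 : ℝ) ^ ((∑ j, w k ω j) * (S.F k).n) = 2 ^ (e3 k * (S.F k).n) * 2 ^ ((∑ j, w k ω j - e3 k) * (S.F k).n) := by
      rw [← Real.rpow_add (by norm_num)]
      congr 1
      ring
    rw [e4]
    have h5 : (2 : ℝ) ^ (e3 k * (S.F k).n) ≤ K k := by
      have := h1 k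
      have := h2 k
      have := abs_nonneg (Kq k)
      simp only [hK]
      linarith
    exact mul_le_mul h5 h.2.2 (by positivity) ((h3 k).le.trans h5)

/-! ### constants -/

/-- the constant of the solutions -/
def cA1 (M D q : ℕ) (K : ℝ) : ℝ :=
  8 * cI M D (M * K + 1) * (cJ q (Cm M D * (M * K + 1)) (1 / K) + 1) ^ 2

lemma cI_one {K : ℝ} (hK : 0 ≤ K) : 1 ≤ cI M D K := by
  unfold cI
  have : (0 : ℝ) ≤ M * (M * (Cm M D ^ 2 * K)) := by positivity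
  linarith

lemma cA1_one {K : ℝ} (hK : 1 ≤ K) : 1 ≤ cA1 M D q K := by
  have h1 : 1 ≤ cI M D (M * K + 1) := cI_one (by positivity)
  have h2 := Cm_one M D
  have h3 : 0 ≤ cJ q (Cm M D * (M * K + 1)) (1 / K) := by
    unfold cJ
    positivity
  unfold cA1
  have h4 : 1 ≤ (cJ q (Cm M D * (M * K + 1)) (1 / K) + 1) ^ 2 := one_le_pow₀ (by linarith)
  nlinarith

lemma sub_cA1 {K : ℕ → ℝ} (hK : S.Sub K) : S.Sub (fun k => cA1 M D q (K k)) := by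
  have h1 := Cm_one M D
  have hc : ∀ c : ℝ, 0 ≤ c → S.Sub (fun _ => c) := fun c h => S.Sub_const h
  have hM : S.Sub (fun k => M * K k + 1) := ((hc M (Nat.cast_nonneg M)).mul hK).add (hc 1 zero_le_one)
  have hI : S.Sub (fun k => cI M D (M * K k + 1)) :=
    ((hc M (Nat.cast_nonneg M)).mul ((hc M (Nat.cast_nonneg M)).mul ((hc (Cm M D ^ 2) (by positivity)).mul hM))).add
      (hc 1 zero_le_one)
  have hJ : S.Sub (fun k => cJ q (Cm M D * (M * K k + 1)) (1 / K k)) := by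
    have h2 : S.Sub (fun k => ((q : ℝ) + 1) * (q.factorial * (Cm M D * (M * K k + 1)) ^ q) * K k) :=
      ((hc ((q : ℝ) + 1) (by positivity)).mul ((hc q.factorial (by positivity)).mul
        (Sub_pow' ((hc (Cm M D) (by linarith)).mul hM) q))).mul hK
    refine sub_congr h2 (Eventually.of_forall fun k => ?_)
    unfold cJ
    simp only [one_div, div_inv_eq_mul]
  exact ((hc 8 (by norm_num)).mul hI).mul (Sub_pow' (hJ.add (hc 1 zero_le_one)) 2)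

end

end Pool.Agent.Helper76.ADP
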