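import Pool.Agent.Helper76.ADP.Adg

/-! THE ADAPTED LEAF, part 3: fullness of the mixed parameters with fresh digits; the exact solution. -/

set_option autoImplicit false

namespace Pool.Agent.Helper76.ADP

open Finset Filter Topology Matrix Metric Pool.Agent.Helper69.RK Pool.Agent.Helper31.EC Pool.Agent.Helper31.EC.Sp
open Pool.Agent.Helper95.LF (PdM)
open Pool.Agent.Helper40.EL
open Pool.Agent.Helper3.LF Pool.Agent.Helper84.MT
open Pool.Agent.Helper89.LX (dot_self_nonneg sum_mul_le dl_one_le Sub_pow')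
open Pool.Agent.Helper76.RL (jac)
open Pool.Agent.Helper63.FRT
open Pool.Agent.Helper76.PUR
open Pool.Agent.Helper76.LG
open Pool.Agent.Helper76.THK (e00 clp clp_bd clp_eq LR relp relp_deg relp_spec relp_root cnt_fc cv)

noncomputable section

variable {S : Sp} {M v q D : ℕ}

/-- the parameters -/
def aY (hvq : v + q = M) (Q : S.VV M) (E : ∀ k, (S.F k).Ω → (Fin v ⊕ Fin q ≃ Fin M)) (U : S.VV q)
    (δ : ∀ k, (S.F k).Ω → Fin q → ℝ) (hδ : ∀ᶠ k in UF, ∀ ω, (S.F k).μ ω ≠ 0 → ∀ j, 0 < δ k ω j ∧ δ k ω j ≤ 1) :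
    (rsp S q).VV M where
  v := fun k w a => Sum.elim (fun i => Q.v k w.1 (E k w.1 (Sum.inl i))) (fun j => rvl U δ k w j) ((e00 hvq).symm a)
  bd := by
    obtain ⟨K1, hK1, h1⟩ := ((rpj S q).vv (aS Q E)).bd
    obtain ⟨K2, hK2, h2⟩ := (rv U δ hδ).bd
    refine ⟨fun k => K1 k + K2 k, hK1.add hK2, ?_⟩
    filter_upwards [h1, h2, hK1.1, hK2.1] with k a1 a2 a3 a4 w hw a
    rcases (e00 hvq).symm a with i | j
    · have := a1 w hw i
      show |Q.v k w.1 (E k w.1 (Sum.inl i))| ≤ _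
      exact this.trans (by linarith)
    · have := a2 w hw j
      show |rvl U δ k w j| ≤ _
      exact this.trans (by linarith)

section

variable (hvq : v + q = M) (Q : S.VV M) (E : ∀ k, (S.F k).Ω → (Fin v ⊕ Fin q ≃ Fin M)) (U : S.VV q)
    (δ : ∀ k, (S.F k).Ω → Fin q → ℝ) (hδ : ∀ᶠ k in UF, ∀ ω, (S.F k).μ ω ≠ 0 → ∀ j, 0 < δ k ω j ∧ δ k ω j ≤ 1)

lemma aY_inl (k : ℕ) (w : ((rsp S q).F k).Ω) (i : Fin v) :
    (aY hvq Q E U δ hδ).v k w (e00 hvq (Sum.inl i)) = Q.v k w.1 (E k w.1 (Sum.inl i)) := by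
  show Sum.elim (fun i => Q.v k w.1 (E k w.1 (Sum.inl i))) (fun j => rvl U δ k w j)
    ((e00 hvq).symm (e00 hvq (Sum.inl i))) = _
  rw [Equiv.symm_apply_apply]
  rfl

lemma aY_inr (k : ℕ) (w : ((rsp S q).F k).Ω) (j : Fin q) :
    (aY hvq Q E U δ hδ).v k w (e00 hvq (Sum.inr j)) = rvl U δ k w j := by
  show Sum.elim (fun i => Q.v k w.1 (E k w.1 (Sum.inl i))) (fun j => rvl U δ k w j)
    ((e00 hvq).symm (e00 hvq (Sum.inr j))) = _
  rw [Equiv.symm_apply_apply]
  rfl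

end

variable {V : ∀ k, Setoid (S.F k).Ω} {Q : S.VV M} {E : ∀ k, (S.F k).Ω → (Fin v ⊕ Fin q ≃ Fin M)}
    {f : ∀ k, (S.F k).Ω → Fin q → MvPolynomial (Fin M) ℝ} {w : ∀ k, (S.F k).Ω → Fin q → ℝ} {K : ℕ → ℝ} {A : ∀ k, (S.F k).Ω → Prop}

/-- the parameters of the rows -/
abbrev RowsK.Y (hvq : v + q = M) (x : RowsF V Q D E f w) (y : RowsK V Q D E f w K A) : (rsp S q).VV M :=
  aY hvq Q E (aU Q f y.subK) (adl S M D w K) (adl_ev S M D w y.K1 x.w01)

/-- FULLNESS -/
theorem mix_full (hvq : v + q = M) (hD : 1 ≤ D) (x : RowsF V Q D E f w) (y : RowsK V Q D E f w K A) :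
    Tendsto (fun k => h (fc (Setoid.ker ((y.Y hvq x).cellv 1 k))) (fc ((rpj S q).pb V k)) /
      ((rsp S q).F k).n) UF (𝓝 M) := by
  set δ := adl S M D w K with hδ
  set U := aU Q f y.subK with hU
  set Y := y.Y hvq x with hY
  have hcA := fun k => cA1_one (M := M) (D := D) (q := q) (y.K1 k)
  obtain ⟨K2, hK2, hYb⟩ := Y.bd
  have hs2 : S.Sub (fun k => 4 * cA1 M D q (K k)) := (S.Sub_const (by norm_num)).mul (sub_cA1 y.subK)
  have hl2 : Tendsto (fun k => (q : ℝ) * (Real.logb 2 (4 * cA1 M D q (K k) + 2) / (S.F k).n)) UF (𝓝 (q * 0)) :=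
    hs2.2.const_mul _
  rw [mul_zero] at hl2
  rw [Metric.tendsto_nhds]
  intro ε hε
  have h2 := h_celm_le Y (fun _ => 0) (fun _ => 1) (fun _ => zero_le_one) ((rpj S q).pb V) (fun k => 2 * K2 k)
    (((rsp S q).Sub_const zero_le_two).mul hK2) (by
    filter_upwards [hYb] with k hk ω ω' a b _ _ i
    rw [(rsp S q).dl_zero, mul_one]
    have h3 := hk ω a i
    have h4 := hk ω' b i
    have h5 := abs_sub (Y.v k ω i) (Y.v k ω' i)
    linarith) (ε / 2) (by linarith)
  filter_upwards [h2, coarse_ent hvq hD x y (show 0 < ε / 4 by linarith),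
    hl2.eventually (gt_mem_nhds (show 0 < ε / 4 by linarith)), x.msw, x.w01] with k a b d hmw hw01
  have hnp : 0 < (S.F k).n := (S.F k).pos
  have hnT : ((rsp S q).F k).n = (S.F k).n := rfl
  rw [Real.dist_eq, abs_lt]
  have e1 : ∑ _i : Fin M, ((1 : ℝ) - 0) = M := by simp
  rw [celm_const, e1] at a
  have h3 := rvl_ent U δ k (Setoid.ker ((aS Q E).cellv 1 k)) (V k) (r := S.dl 1 k) (S.dl_pos 1 k)
    (fun ω j => adl_pos S M D w y.K1 k ω j) (fun ω ω' p1 p2 p3 p4 => by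
      simp only [hδ]
      unfold adl
      rw [hmw ω ω' p1 p2 p3 p4])
  -- the number of the fresh values in a cell
  have h4 : ∑ j, ∑ ω, (S.F k).μ ω * Real.logb 2 (S.dl 1 k * (gn S k + 1) / δ k ω j + 1) ≤
      q * ((S.F k).n + Real.logb 2 (4 * cA1 M D q (K k))) - (S.F k).n * ∑ ω, (S.F k).μ ω * ∑ j, w k ω j := by
    have h5 : ∀ ω, (S.F k).μ ω ≠ 0 → ∀ j, Real.logb 2 (S.dl 1 k * (gn S k + 1) / δ k ω j + 1) ≤
        (1 - w k ω j) * (S.F k).n + Real.logb 2 (4 * cA1 M D q (K k)) := by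
      intro ω hω j
      have hcp : 0 < cA1 M D q (K k) := by linarith [hcA k]
      have h6 : (0 : ℝ) < 2 ^ ((1 - w k ω j) * (S.F k).n) := by positivity
      have h61 : (1 : ℝ) ≤ 2 ^ ((1 - w k ω j) * (S.F k).n) := by
        apply Real.one_le_rpow (by norm_num)
        have := (hw01 ω hω j).2
        nlinarith
      have h7 : S.dl 1 k * (gn S k + 1) ≤ 3 := by
        have h8 : (gn S k : ℝ) < 2 ^ (S.F k).n + 1 := Nat.ceil_lt_add_one (by positivity)
        have h9 : S.dl 1 k * 2 ^ (S.F k).n = 1 := by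
          unfold Sp.dl
          rw [← Real.rpow_add (by norm_num)]
          have : -(1 * (S.F k).n) + (S.F k).n = 0 := by ring
          rw [this, Real.rpow_zero]
        have h10 := dl_one_le S k
        have h11 := S.dl_pos 1 k
        nlinarith
      have h8 : S.dl 1 k * (gn S k + 1) / δ k ω j + 1 ≤ (4 * cA1 M D q (K k)) * 2 ^ ((1 - w k ω j) * (S.F k).n) := by
        rw [div_eq_mul_inv]
        simp only [hδ]
        rw [adl_inv]
        have h9 : S.dl 1 k * (gn S k + 1) * (cA1 M D q (K k) * 2 ^ ((1 - w k ω j) * (S.F k).n)) ≤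
            3 * (cA1 M D q (K k) * 2 ^ ((1 - w k ω j) * (S.F k).n)) :=
          mul_le_mul_of_nonneg_right h7 (by positivity)
        have h10 : 1 ≤ cA1 M D q (K k) * 2 ^ ((1 - w k ω j) * (S.F k).n) :=
          one_le_mul_of_one_le_of_one_le (hcA k) h61
        linarith
      have h9 : 0 < S.dl 1 k * (gn S k + 1) / δ k ω j + 1 := by
        have := adl_pos S M D w y.K1 k ω j
        have := S.dl_pos 1 k
        positivity
      refine (Real.logb_le_logb_of_le (by norm_num) h9 h8).trans (le_of_eq ?_)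
      rw [Real.logb_mul (by positivity) h6.ne', Real.logb_rpow (by norm_num) (by norm_num)]
      ring
    have h6 : ∑ j, ∑ ω, (S.F k).μ ω * Real.logb 2 (S.dl 1 k * (gn S k + 1) / δ k ω j + 1) ≤
        ∑ j, ∑ ω, (S.F k).μ ω * ((1 - w k ω j) * (S.F k).n + Real.logb 2 (4 * cA1 M D q (K k))) := by
      refine Finset.sum_le_sum fun j _ => Finset.sum_le_sum fun ω _ => ?_
      by_cases hω : (S.F k).μ ω = 0
      · rw [hω, zero_mul, zero_mul]
      · exact mul_le_mul_of_nonneg_left (h5 ω hω j) ((S.F k).nn ω)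
    refine h6.trans (le_of_eq ?_)
    rw [Finset.sum_comm]
    have e2 : ∀ ω, ∑ j : Fin q, (S.F k).μ ω * ((1 - w k ω j) * (S.F k).n + Real.logb 2 (4 * cA1 M D q (K k))) =
        (S.F k).μ ω * (q * ((S.F k).n + Real.logb 2 (4 * cA1 M D q (K k)))) -
          (S.F k).n * ((S.F k).μ ω * ∑ j, w k ω j) := by
      intro ω
      rw [← Finset.mul_sum, Finset.sum_add_distrib, ← Finset.sum_mul, Finset.sum_sub_distrib, Finset.sum_const,
        Finset.sum_const, Finset.card_univ, Fintype.card_fin, nsmul_eq_mul, nsmul_eq_mul]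
      ring
    rw [Finset.sum_congr rfl fun ω _ => e2 ω, Finset.sum_sub_distrib, ← Finset.sum_mul, ← Finset.mul_sum]
    have e3 : ∑ ω, (S.F k).μ ω = 1 := (S.F k).ms
    rw [e3, one_mul]
  have h5 : ((rsp S q).F k).e (Setoid.comap Prod.fst (Setoid.ker ((aS Q E).cellv 1 k)) ⊓
      Setoid.ker (fun w j => ⌊rvl U δ k w j / S.dl 1 k⌋)) (Setoid.comap Prod.fst (V k) ⊓ ((rsp S q).F k).Z) ≤
      ((rsp S q).F k).e (Setoid.ker (Y.cellv 1 k)) ((rpj S q).pb V k ⊓ ((rsp S q).F k).Z) := by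
    apply ((rsp S q).F k).e_mono
    intro w1 w2 _ _ h _
    have h6 : Y.cellv 1 k w1 = Y.cellv 1 k w2 := h
    constructor
    · show (aS Q E).cellv 1 k w1.1 = (aS Q E).cellv 1 k w2.1
      funext i
      have h7 : ⌊Y.v k w1 (e00 hvq (Sum.inl i)) / S.dl 1 k⌋ = ⌊Y.v k w2 (e00 hvq (Sum.inl i)) / S.dl 1 k⌋ :=
        congrFun h6 (e00 hvq (Sum.inl i))
      rw [hY, aY_inl, aY_inl] at h7
      exact h7
    · show (fun j => ⌊rvl U δ k w1 j / S.dl 1 k⌋) = (fun j => ⌊rvl U δ k w2 j / S.dl 1 k⌋)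
      funext j
      have h7 : ⌊Y.v k w1 (e00 hvq (Sum.inr j)) / S.dl 1 k⌋ = ⌊Y.v k w2 (e00 hvq (Sum.inr j)) / S.dl 1 k⌋ :=
        congrFun h6 (e00 hvq (Sum.inr j))
      rw [hY, aY_inr, aY_inr] at h7
      exact h7
  have h6 : (S.F k).n ≤ Real.logb 2 ((gn S k : ℝ) + 1) := by
    have h7 : (S.F k).n = Real.logb 2 (2 ^ (S.F k).n) := by rw [Real.logb_rpow (by norm_num) (by norm_num)]
    rw [h7]
    apply Real.logb_le_logb_of_le (by norm_num) (by positivity)
    have h8 : (2 : ℝ) ^ (S.F k).n ≤ gn S k := Nat.le_ceil _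
    linarith
  have h7 : q * Real.logb 2 (4 * cA1 M D q (K k)) ≤ ε / 4 * (S.F k).n := by
    have h7 : Real.logb 2 (4 * cA1 M D q (K k)) ≤ Real.logb 2 (4 * cA1 M D q (K k) + 2) :=
      Real.logb_le_logb_of_le (by norm_num) (by linarith [hcA k]) (by linarith)
    have h8 := mul_le_mul_of_nonneg_right d.le hnp.le
    rw [mul_assoc, div_mul_cancel₀ _ hnp.ne'] at h8
    exact (mul_le_mul_of_nonneg_left h7 (Nat.cast_nonneg q)).trans h8
  have h8 : ((M : ℝ) - ε * (3 / 4)) ≤ h (fc (Setoid.ker (Y.cellv 1 k))) (fc ((rpj S q).pb V k)) / ((rsp S q).F k).n := by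
    rw [hnT, le_div_iff₀ hnp, h_fc]
    have h9 : (S.F k).e (aWk Q E U δ k) (V k ⊓ (S.F k).Z) = (S.F k).e (Setoid.ker ((aS Q E).cellv 1 k) ⊓
      Setoid.ker (rfo U δ k)) (V k ⊓ (S.F k).Z) := rfl
    rw [h9] at b
    have h10 := mul_le_mul_of_nonneg_left h6 (Nat.cast_nonneg q : (0 : ℝ) ≤ q)
    nlinarith
  constructor <;> linarith

/-- THE SOLUTION -/
theorem sol_ex (hvq : v + q = M) (x : RowsF V Q D E f w) (y : RowsK V Q D E f w K A) :
    ∀ᶠ k in UF, ∀ ω, (S.F k).μ ω ≠ 0 → A k ω → ∀ u : Fin q → ℝ,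
      (∀ j, |u j - MvPolynomial.eval (Q.v k ω) (f k ω j)| ≤ adl S M D w K k ω j) →
      ∃ z : Fin M → ℝ, (∀ i, z (E k ω (Sum.inl i)) = Q.v k ω (E k ω (Sum.inl i))) ∧
        (∀ b, |z b - Q.v k ω b| ≤ S.dl 1 k) ∧ ∀ j, MvPolynomial.eval z (f k ω j) = u j := by
  filter_upwards [x.deg, y.der, y.det] with k a1 a2 a3 ω hω hA u hu
  have hd := S.dl_pos 1 k
  have hKk := y.K1 k
  have hK0 : 0 < K k := by linarith
  have hn := (S.F k).pos
  have hcA := cA1_one (M := M) (D := D) (q := q) hKk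
  set s : Fin q → ℝ := fun j => 2 ^ ((1 - w k ω j) * (S.F k).n) with hs
  have hs0 : ∀ j, 0 < s j := fun j => by positivity
  set p : Fin q → MvPolynomial (Fin M) ℝ := fun j => MvPolynomial.C (s j) * (f k ω j -
    MvPolynomial.C (MvPolynomial.eval (Q.v k ω) (f k ω j))) with hp
  have hqM : q ≤ M := by omega
  have hev : ∀ (z : Fin M → ℝ) j, MvPolynomial.eval z (p j) = s j * (MvPolynomial.eval z (f k ω j) -
      MvPolynomial.eval (Q.v k ω) (f k ω j)) := by
    intro z j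
    simp only [hp]
    rw [map_mul, map_sub, MvPolynomial.eval_C, MvPolynomial.eval_C]
  have hev0 : ∀ j, MvPolynomial.eval (Q.v k ω) (p j) = 0 := by
    intro j
    rw [hev, sub_self, mul_zero]
  have hpd : ∀ j, (p j).totalDegree ≤ D := by
    intro j
    simp only [hp]
    refine (MvPolynomial.totalDegree_mul _ _).trans ?_
    rw [MvPolynomial.totalDegree_C, zero_add]
    refine (MvPolynomial.totalDegree_sub _ _).trans ?_
    rw [MvPolynomial.totalDegree_C]
    exact max_le (a1 ω hω j) (Nat.zero_le _)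
  have hder : ∀ j a, MvPolynomial.pderiv a (p j) = MvPolynomial.C (s j) * MvPolynomial.pderiv a (f k ω j) := by
    intro j a
    simp only [hp]
    rw [MvPolynomial.pderiv_C_mul, map_sub, MvPolynomial.pderiv_C, sub_zero]
  have hsw : ∀ j, S.dl 1 k * (s j * 2 ^ (w k ω j * (S.F k).n)) = 1 := by
    intro j
    simp only [hs]
    unfold Sp.dl
    rw [← Real.rpow_add (by norm_num), ← Real.rpow_add (by norm_num)]
    have : -(1 * (S.F k).n) + ((1 - w k ω j) * (S.F k).n + w k ω j * (S.F k).n) = 0 := by ring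
    rw [this, Real.rpow_zero]
  have hnode : ∀ j (l : Fin M → Fin (D + 1)), |MvPolynomial.eval (nodp D (Q.v k ω) (S.dl 1 k) l) (p j)| ≤ M * K k + 1 := by
    intro j l
    rw [hev, abs_mul, abs_of_pos (hs0 j)]
    have h5 := var_cell (f k ω j) (Q.v k ω) (nodp D (Q.v k ω) (S.dl 1 k) l) hd.le
      (fun i => node_near (D := D) (Q.v k ω) hd.le l i) (fun z hz a => a2 ω hω hA z hz j a)
    have h6 := mul_le_mul_of_nonneg_left h5 (hs0 j).le
    have h7 : s j * (M * (S.dl 1 k * (K k * 2 ^ (w k ω j * (S.F k).n)))) = M * K k := by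
      calc s j * (M * (S.dl 1 k * (K k * 2 ^ (w k ω j * (S.F k).n)))) =
          M * K k * (S.dl 1 k * (s j * 2 ^ (w k ω j * (S.F k).n))) := by ring
        _ = _ := by rw [hsw, mul_one]
    rw [h7] at h6
    linarith
  have hmn : mnr (E k ω) p (S.dl 1 k) (Q.v k ω) =
      Matrix.diagonal (fun j => S.dl 1 k * s j) * rmx (E k ω) (f k ω) (Q.v k ω) := by
    ext j i
    rw [Matrix.diagonal_mul]
    show S.dl 1 k * MvPolynomial.eval (Q.v k ω) (MvPolynomial.pderiv (E k ω (Sum.inr i)) (p j)) =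
      S.dl 1 k * s j * MvPolynomial.eval (Q.v k ω) (MvPolynomial.pderiv (E k ω (Sum.inr i)) (f k ω j))
    rw [hder, map_mul, MvPolynomial.eval_C]
    ring
  have hdet : 1 / K k ≤ |(mnr (E k ω) p (S.dl 1 k) (Q.v k ω)).det| := by
    rw [hmn, Matrix.det_mul, Matrix.det_diagonal, abs_mul, div_le_iff₀ hK0]
    have h1 := a3 ω hω hA
    have h2 : (∏ j, (S.dl 1 k * s j)) * 2 ^ ((∑ j, w k ω j) * (S.F k).n) = 1 := by
      have e1 : (2 : ℝ) ^ ((∑ j, w k ω j) * (S.F k).n) = ∏ j, 2 ^ (w k ω j * (S.F k).n) := by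
        rw [← Real.rpow_sum_of_pos (by norm_num), Finset.sum_mul]
      rw [e1, ← Finset.prod_mul_distrib]
      apply Finset.prod_eq_one
      intro j _
      rw [mul_assoc]
      exact hsw j
    have h3 : 0 < ∏ j, (S.dl 1 k * s j) := Finset.prod_pos fun j _ => mul_pos hd (hs0 j)
    rw [abs_of_pos h3]
    have h4 := mul_le_mul_of_nonneg_left h1 h3.le
    rw [h2] at h4
    linarith
  obtain ⟨z, hz1, hz2, hz3, -⟩ := exists_sol hqM (E k ω) p hpd (Q.v k ω) (S.dl 1 k) (M * K k + 1) hd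
    (by have : (0 : ℝ) ≤ M * K k := by positivity
        linarith) hnode (Δ := 1 / K k) (by positivity) hdet
    (fun j => s j * (u j - MvPolynomial.eval (Q.v k ω) (f k ω j))) (fun j => by
      rw [hev0, sub_zero, abs_mul, abs_of_pos (hs0 j)]
      have h1 := hu j
      have h2 : s j * adl S M D w K k ω j * cA1 M D q (K k) = 1 := by
        simp only [hs]
        unfold adl
        have h3 : (2 : ℝ) ^ ((1 - w k ω j) * (S.F k).n) * 2 ^ (-((1 - w k ω j) * (S.F k).n)) = 1 := by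
          rw [← Real.rpow_add (by norm_num)]
          have : (1 - w k ω j) * (S.F k).n + -((1 - w k ω j) * (S.F k).n) = 0 := by ring
          rw [this, Real.rpow_zero]
        have h4 : cA1 M D q (K k) ≠ 0 := by linarith
        rw [mul_div_assoc', h3, one_div, inv_mul_cancel₀ h4]
      have h3 := mul_le_mul_of_nonneg_left h1 (hs0 j).le
      have h4 := mul_le_mul_of_nonneg_right h3 (show 0 ≤ cA1 M D q (K k) by linarith)
      rw [h2] at h4
      exact h4)
  refine ⟨z, hz1, hz2, fun j => ?_⟩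
  have h1 := hz3 j
  rw [hev] at h1
  have h2 := mul_left_cancel₀ (hs0 j).ne' h1
  linarith

end

end Pool.Agent.Helper76.ADP
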