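import Pool.Agent.Helper76.ADP.Adh

/-! THE ADAPTED LEAF, part 4: the point is, up to `2 ^ (-n)`, an exact root over the mixed parameters. -/

set_option autoImplicit false

namespace Pool.Agent.Helper76.ADP

open Finset Filter Topology Matrix Metric Pool.Agent.Helper69.RK Pool.Agent.Helper31.EC Pool.Agent.Helper31.EC.Sp
open Pool.Agent.Helper95.LF (PdM)
open Pool.Agent.Helper40.EL
open Pool.Agent.Helper3.LF Pool.Agent.Helper84.MT
open Pool.Agent.Helper89.LX (dot_self_nonneg sum_mul_le dl_one_le Sub_pow')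
open Pool.Agent.Helper76.RL (jac)
open Pool.Agent.Helper63.FRT
open Pool.Agent.Helper76.PUR
open Pool.Agent.Helper76.LG
open Pool.Agent.Helper76.THK (e00 clp clp_bd clp_eq LR relp relp_deg relp_spec relp_root cnt_fc cv)

noncomputable section

variable {S : Sp} {M v q D : ℕ}

section

variable (hvq : v + q = M) (E : ∀ k, (S.F k).Ω → (Fin v ⊕ Fin q ≃ Fin M))

/-- the pinned coordinates -/
def apin (k : ℕ) (w : ((rsp S q).F k).Ω) (p : Fin M) : Option (Fin M) :=
  Sum.elim (fun i => some (e00 hvq (Sum.inl i))) (fun _ => none) ((E k w.1).symm p)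

lemma apin_some {k : ℕ} {w : ((rsp S q).F k).Ω} {p j : Fin M} (h : apin hvq E k w p = some j) :
    ∃ i : Fin v, j = e00 hvq (Sum.inl i) ∧ p = E k w.1 (Sum.inl i) := by
  unfold apin at h
  rcases hs : (E k w.1).symm p with i | l
  · rw [hs] at h
    refine ⟨i, (Option.some.inj h).symm, ?_⟩
    rw [← hs, Equiv.apply_symm_apply]
  · rw [hs] at h
    exact absurd h (by simp)

lemma apin_inl (k : ℕ) (w : ((rsp S q).F k).Ω) (i : Fin v) :
    apin hvq E k w (E k w.1 (Sum.inl i)) = some (e00 hvq (Sum.inl i)) := by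
  unfold apin
  rw [Equiv.symm_apply_apply]
  rfl

end

variable {V : ∀ k, Setoid (S.F k).Ω} {Q : S.VV M} {E : ∀ k, (S.F k).Ω → (Fin v ⊕ Fin q ≃ Fin M)}
    {f : ∀ k, (S.F k).Ω → Fin q → MvPolynomial (Fin M) ℝ} {w : ∀ k, (S.F k).Ω → Fin q → ℝ} {K : ℕ → ℝ} {A : ∀ k, (S.F k).Ω → Prop}

/-- THE POINT IS A ROOT -/
theorem adp_root (hvq : v + q = M) (hD : 1 ≤ D) (x : RowsF V Q D E f w) (y : RowsK V Q D E f w K A) :
    ∃ (F : Fin M → ∀ k, ((rsp S q).F k).Ω → MvPolynomial (Fin (M + 1)) ℝ)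
      (z : Fin M → ∀ k, ((rsp S q).F k).Ω → ℝ),
      RootF ((rpj S q).pb V) ((rpj S q).vv Q) (y.Y hvq x)
        (apin hvq E) 1 (LR M D) F z := by
  classical
  set δ := adl S M D w K with hδ
  set U := aU Q f y.subK with hU
  set Y := y.Y hvq x with hY
  -- the solution
  set P : ∀ k, ((rsp S q).F k).Ω → (Fin M → ℝ) → Prop := fun k w' z =>
    (∀ i, z (E k w'.1 (Sum.inl i)) = Q.v k w'.1 (E k w'.1 (Sum.inl i))) ∧
        (∀ b, |z b - Q.v k w'.1 b| ≤ S.dl 1 k) ∧ ∀ j, MvPolynomial.eval z (f k w'.1 j) = rvl U δ k w' j with hP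
  set z : ∀ k, ((rsp S q).F k).Ω → Fin M → ℝ := fun k w' => if h : ∃ z, P k w' z then h.choose else 0 with hz
  have hzs : ∀ᶠ k in UF, ∀ w', ((rsp S q).F k).μ w' ≠ 0 → A k w'.1 → P k w' (z k w') := by
    filter_upwards [sol_ex hvq x y, y.bd] with k h1 h2 w' hw' hA
    have hw := (rpj S q).supp k w' hw'
    have hUe : ∀ j, U.v k w'.1 j = MvPolynomial.eval (Q.v k w'.1) (f k w'.1 j) := fun j =>
      clp_eq (h2 w'.1 hw hA j)
    have h3 : ∃ z, P k w' z := h1 w'.1 hw hA (fun j => rvl U δ k w' j) (fun j => by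
      rw [← hUe j]
      exact rvl_near U δ k w' j (adl_pos S M D w y.K1 k _ j))
    simp only [hz]
    rw [dif_pos h3]
    exact h3.choose_spec
  refine ⟨fun p k w' => relp M D (Fin.cons (MvPolynomial.X p) (apsi hvq (E k w'.1) (f k w'.1))),
    fun p k w' => z k w' p, ⟨mix_full hvq hD x y, ?_, ?_, ?_, ?_, ?_⟩⟩
  · refine Eventually.of_forall fun k w' _ p j h => ?_
    obtain ⟨i, hj, hp⟩ := apin_some hvq E h
    rw [hj, hp, hY, aY_inl]
    rfl
  · filter_upwards [x.msE] with k hk w1 w2 h1 h2 h3 h4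
    have e1 : E k w1.1 = E k w2.1 := hk w1.1 w2.1 ((rpj S q).supp k w1 h1) ((rpj S q).supp k w2 h2) h3 h4
    funext p
    unfold apin
    rw [e1]
  · exact fun p => Eventually.of_forall fun k w' _ => relp_deg _
  · intro p
    filter_upwards [x.msE, x.msf] with k hk hk' w1 w2 h1 h2 h3 h4
    have e1 : E k w1.1 = E k w2.1 := hk w1.1 w2.1 ((rpj S q).supp k w1 h1) ((rpj S q).supp k w2 h2) h3 h4
    have e2 : f k w1.1 = f k w2.1 := hk' w1.1 w2.1 ((rpj S q).supp k w1 h1) ((rpj S q).supp k w2 h2) h3 h4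
    rw [e1, e2]
  · intro p η hη
    have hTA : Typ (S := rsp S q) (fun k w' => A k w'.1) := (rpj S q).typ y.tA
    refine hTA.mono ?_
    filter_upwards [hzs, x.deg] with k h1 h2 w' hw' hA _
    obtain ⟨z1, z2, z3⟩ := h1 w' hw' hA
    have hw := (rpj S q).supp k w' hw'
    have h3 := relp_root hD (apsi_deg hvq (E k w'.1) hD (h2 w'.1 hw)) p (z k w')
    refine ⟨h3.1, ?_, ?_⟩
    · have e1 : (fun a => MvPolynomial.eval (z k w') (apsi hvq (E k w'.1) (f k w'.1) a)) = Y.v k w' := by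
        funext a
        refine all_e00 hvq (P := fun a => MvPolynomial.eval (z k w') (apsi hvq (E k w'.1) (f k w'.1) a) = Y.v k w' a)
          (fun i => ?_) (fun j => ?_) a
        · rw [apsi_inl, MvPolynomial.eval_X, hY, aY_inl]
          exact z1 i
        · rw [apsi_inr, hY, aY_inr]
          exact z3 j
      have h4 := h3.2
      rw [e1] at h4
      exact h4
    · have h4 := z2 p
      rw [abs_sub_comm] at h4
      have e1 : S.dl 1 k = 2 ^ (-(1 * (S.F k).n)) := rfl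
      rw [e1] at h4
      show |Q.v k w'.1 p - z k w' p| ≤ 2 ^ (η * (S.F k).n) * 2 ^ (-(1 * (S.F k).n))
      refine h4.trans ?_
      have hnp := (S.F k).pos
      have h5 : (1 : ℝ) ≤ 2 ^ (η * (S.F k).n) := Real.one_le_rpow (by norm_num) (by positivity)
      exact le_mul_of_one_le_left (by positivity) h5

end

end Pool.Agent.Helper76.ADP
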