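import Pool.Agent.Helper76.ADP.Adr

/-! THE ADAPTED LEAF, part 5: the windows of the parameters are known to the coarse data: fresh digits, cells of the free
coordinates, cut cells of the rows. -/

set_option autoImplicit false

namespace Pool.Agent.Helper76.ADP

open Finset Filter Topology Matrix Metric Pool.Agent.Helper69.RK Pool.Agent.Helper31.EC Pool.Agent.Helper31.EC.Sp
open Pool.Agent.Helper95.LF (PdM)
open Pool.Agent.Helper40.EL
open Pool.Agent.Helper3.LF Pool.Agent.Helper84.MT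
open Pool.Agent.Helper89.LX (dot_self_nonneg sum_mul_le dl_one_le Sub_pow')
open Pool.Agent.Helper76.RL (jac)
open Pool.Agent.Helper63.FRT
open Pool.Agent.Helper76.PUR
open Pool.Agent.Helper76.LG
open Pool.Agent.Helper76.THK (e00 clp clp_bd clp_eq LR relp relp_deg relp_spec relp_root cnt_fc cv)

noncomputable section

variable {S : Sp} {M v q D : ℕ}

/-- the cut cells of the rows at the level `b` -/
def acel (U : S.VV q) (w : ∀ k, (S.F k).Ω → Fin q → ℝ) (b : ℝ) (k : ℕ) (ω : (S.F k).Ω) (j : Fin q) : ℤ :=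
  ⌊U.v k ω j / S.dl (min b (1 - w k ω j)) k⌋

/-- the coarse data of level `b` -/
def aB (V : ∀ k, Setoid (S.F k).Ω) (X : S.VV v) (U : S.VV q) (w : ∀ k, (S.F k).Ω → Fin q → ℝ) (b : ℝ) :
    ∀ k, Setoid ((rsp S q).F k).Ω := fun k =>
  (rpj S q).pb V k ⊓ rfr S q k ⊓ (rpj S q).pb (fun k => Setoid.ker (X.cellv b k)) k ⊓
    (rpj S q).pb (fun k => Setoid.ker (acel U w b k)) k

variable {V : ∀ k, Setoid (S.F k).Ω} {Q : S.VV M} {E : ∀ k, (S.F k).Ω → (Fin v ⊕ Fin q ≃ Fin M)}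
    {f : ∀ k, (S.F k).Ω → Fin q → MvPolynomial (Fin M) ℝ} {w : ∀ k, (S.F k).Ω → Fin q → ℝ} {K : ℕ → ℝ} {A : ∀ k, (S.F k).Ω → Prop}

open Classical in
/-- the integer parts of the rows which are cut below the level `b` -/
def aN (U : S.VV q) (δ : ∀ k, (S.F k).Ω → Fin q → ℝ) (w : ∀ k, (S.F k).Ω → Fin q → ℝ) (b : ℝ) (k : ℕ)
    (w' : ((rsp S q).F k).Ω) (j : Fin q) : ℤ := if b ≤ 1 - w k w'.1 j then 0 else rfo U δ k w'.1 j

lemma rfo_diff (U : S.VV q) (δ : ∀ k, (S.F k).Ω → Fin q → ℝ) (k : ℕ) (ω ω' : (S.F k).Ω) (j : Fin q)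
    (hδ : 0 < δ k ω j) (he : δ k ω j = δ k ω' j) :
    δ k ω j * |(rfo U δ k ω j : ℝ) - rfo U δ k ω' j| ≤ |U.v k ω j - U.v k ω' j| + 2 * δ k ω j := by
  have h1 : |U.v k ω j - δ k ω j * rfo U δ k ω j| ≤ δ k ω j :=
    Pool.Agent.Helper76.DIM.near_floor (U.v k ω j) (δ k ω j) hδ
  have h2 : |U.v k ω' j - δ k ω' j * rfo U δ k ω' j| ≤ δ k ω' j :=
    Pool.Agent.Helper76.DIM.near_floor (U.v k ω' j) (δ k ω' j) (by rw [← he]; exact hδ)
  rw [← he] at h2
  have e1 : δ k ω j * |(rfo U δ k ω j : ℝ) - rfo U δ k ω' j| = |δ k ω j * rfo U δ k ω j - δ k ω j * rfo U δ k ω' j| := by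
    rw [← mul_sub, abs_mul, abs_of_pos hδ]
  rw [e1]
  have e2 : δ k ω j * (rfo U δ k ω j : ℝ) - δ k ω j * rfo U δ k ω' j =
      (U.v k ω j - U.v k ω' j) - (U.v k ω j - δ k ω j * rfo U δ k ω j) + (U.v k ω' j - δ k ω j * rfo U δ k ω' j) := by ring
  rw [e2]
  refine (abs_add_le _ _).trans ?_
  have h3 := abs_sub (U.v k ω j - U.v k ω' j) (U.v k ω j - δ k ω j * rfo U δ k ω j)
  linarith

lemma rvl_diff (U : S.VV q) (δ : ∀ k, (S.F k).Ω → Fin q → ℝ) (k : ℕ) (w1 w2 : ((rsp S q).F k).Ω) (j : Fin q)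
    (hδ : 0 < δ k w1.1 j) (he : δ k w1.1 j = δ k w2.1 j) (h : w1.2 = w2.2) :
    |rvl U δ k w1 j - rvl U δ k w2 j| = δ k w1.1 j * |(rfo U δ k w1.1 j : ℝ) - rfo U δ k w2.1 j| := by
  have e1 : ∀ w' : ((rsp S q).F k).Ω, rvl U δ k w' j =
      δ k w'.1 j * (rfo U δ k w'.1 j + ((w'.2 j : ℕ) : ℝ) / (gn S k + 1)) := fun _ => rfl
  rw [e1, e1, h, ← he, ← mul_sub, abs_mul, abs_of_pos hδ, add_sub_add_right_eq_sub]

/-- same cells of a level -/
lemma near_dl (S : Sp) (k : ℕ) (b : ℝ) {x y : ℝ} (h : ⌊x / S.dl b k⌋ = ⌊y / S.dl b k⌋) : |x - y| ≤ S.dl b k :=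
  abs_sub_le_of_floor_eq (S.dl_pos b k) h

/-- WINDOWS OF THE PARAMETERS -/
theorem win_mix (hvq : v + q = M) (x : RowsF V Q D E f w) (y : RowsK V Q D E f w K A)
    {La : ∀ k, Setoid ((rsp S q).F k).Ω} {P : (rsp S q).VV M} {N : ℕ → ℝ}
    {c : ∀ k, ((rsp S q).F k).Ω → Fin M → ℤ}
    (ent : Tendsto (fun k => h (fc (La k)) (fc ((rpj S q).pb V k)) / ((rsp S q).F k).n) UF (𝓝 0))
    (N1 : ∀ᶠ k in UF, 1 ≤ N k) (subN : (rsp S q).Sub N)
    (eP : ∀ k w' j, P.v k w' j = N k * (y.Y hvq x).v k w' j - c k w' j)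
    (msc : ∀ᶠ k in UF, ∀ w1 w2, ((rsp S q).F k).μ w1 ≠ 0 → ((rsp S q).F k).μ w2 ≠ 0 →
      ((rsp S q).F k).Z w1 w2 → La k w1 w2 → c k w1 = c k w2) (b : ℝ) :
    PLe (S := rsp S q) (fun k => fc (La k ⊓ Setoid.ker (P.cellv b k)))
      (fun k => fc (aB V (aS Q E) (aU Q f y.subK) w b k)) := by
  classical
  set δ := adl S M D w K with hδd
  set U := aU Q f y.subK with hU
  set Y := y.Y hvq x with hY
  set B := aB V (aS Q E) U w b with hB
  have hδ : ∀ k ω j, 0 < δ k ω j := fun k ω j => adl_pos S M D w y.K1 k ω j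
  have hcA := fun k => cA1_one (M := M) (D := D) (q := q) (y.K1 k)
  have hδe : ∀ k ω j, δ k ω j * cA1 M D q (K k) = S.dl (1 - w k ω j) k := fun k ω j => adl_mul S M D w y.K1 k ω j
  have hδle : ∀ k ω j, δ k ω j ≤ S.dl (1 - w k ω j) k := fun k ω j => adl_dl S M D w y.K1 k ω j
  -- the cuts are known
  have hbase : ∀ᶠ k in UF, ∀ w1 w2 : ((rsp S q).F k).Ω, ((rsp S q).F k).μ w1 ≠ 0 → ((rsp S q).F k).μ w2 ≠ 0 → ((rsp S q).F k).Z w1 w2 → B k w1 w2 →
      w k w1.1 = w k w2.1 ∧ δ k w1.1 = δ k w2.1 ∧ ∀ j, |U.v k w1.1 j - U.v k w2.1 j| ≤ S.dl (min b (1 - w k w1.1 j)) k := by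
    filter_upwards [x.msw] with k hk w1 w2 a1 a2 z h
    have h1 : w k w1.1 = w k w2.1 := hk w1.1 w2.1 ((rpj S q).supp k w1 a1) ((rpj S q).supp k w2 a2) z h.1.1.1
    refine ⟨h1, ?_, fun j => ?_⟩
    · simp only [hδd]
      unfold adl
      rw [h1]
    · have h2 : ⌊U.v k w1.1 j / S.dl (min b (1 - w k w1.1 j)) k⌋ = ⌊U.v k w2.1 j / S.dl (min b (1 - w k w2.1 j)) k⌋ :=
        congrFun h.2 j
      rw [← h1] at h2
      exact near_dl S k _ h2
  -- first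
  set R : ∀ k, Setoid ((rsp S q).F k).Ω := fun k => Setoid.ker (aN U δ w b k) with hR
  have hsc : S.Sub (fun k => cA1 M D q (K k) + 2) := (sub_cA1 y.subK).add (S.Sub_const zero_le_two)
  have hl : Tendsto (fun k => (q : ℝ) * (Real.logb 2 ((cA1 M D q (K k) + 2) + 2) / (S.F k).n)) UF (𝓝 (q * 0)) :=
    hsc.2.const_mul _
  rw [mul_zero] at hl
  have h1 : ∀ᶠ k in UF, ((rsp S q).F k).e (R k) (B k ⊓ ((rsp S q).F k).Z) ≤ q * Real.logb 2 ((cA1 M D q (K k) + 2) + 1) := by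
    filter_upwards [hbase] with k hbk
    apply ((rsp S q).F k).e_int_le _ _ _ (by linarith [hcA k])
    intro w1 w2 a1 a2 h j
    obtain ⟨e1, e2, e3⟩ := hbk w1 w2 a1 a2 h.2 h.1
    unfold aN
    rw [← e1]
    split_ifs with hj
    · rw [sub_self, abs_zero]
      linarith [hcA k]
    · have h2 := e3 j
      rw [min_eq_right (not_le.mp hj).le] at h2
      have h3 := rfo_diff U δ k w1.1 w2.1 j (hδ k _ j) (congrFun e2 j)
      rw [← hδe k _ j] at h2
      have h4 : δ k w1.1 j * |(rfo U δ k w1.1 j : ℝ) - rfo U δ k w2.1 j| ≤ δ k w1.1 j * (cA1 M D q (K k) + 2) := by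
        nlinarith
      exact le_of_mul_le_mul_left h4 (hδ k _ j)
  -- second
  have h2 := h_celm_le P (fun _ => b) (fun _ => b) (fun _ => le_rfl) (fun k => La k ⊓ (B k ⊓ R k)) (fun k => 3 * N k)
    (((rsp S q).Sub_const (by norm_num)).mul subN) (by
    filter_upwards [msc, N1, hbase] with k hk hN hbk w1 w2 a1 a2 z h i
    obtain ⟨hLa, hBB, hRR⟩ := h
    obtain ⟨e1, e2, e3⟩ := hbk w1 w2 a1 a2 z hBB
    have hc := hk w1 w2 a1 a2 z hLa
    have hb := S.dl_pos b k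
    have hYY : |Y.v k w1 i - Y.v k w2 i| ≤ 3 * S.dl b k := by
      refine all_e00 hvq (P := fun i => |Y.v k w1 i - Y.v k w2 i| ≤ 3 * S.dl b k) (fun i => ?_) (fun j => ?_) i
      · rw [hY, aY_inl, aY_inl]
        have h5 : (aS Q E).cellv b k w1.1 = (aS Q E).cellv b k w2.1 := hBB.1.2
        have h6 : |Q.v k w1.1 (E k w1.1 (Sum.inl i)) - Q.v k w2.1 (E k w2.1 (Sum.inl i))| ≤ S.dl b k :=
          near_dl S k b (congrFun h5 i)
        linarith
      · rw [hY, aY_inr, aY_inr]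
        have h5 : w1.2 = w2.2 := hBB.1.1.2
        have h6 := rvl_diff U δ k w1 w2 j (hδ k _ j) (congrFun e2 j) h5
        rw [h6]
        by_cases hj : b ≤ 1 - w k w1.1 j
        · have h7 := e3 j
          rw [min_eq_left hj] at h7
          have h8 := rfo_diff U δ k w1.1 w2.1 j (hδ k _ j) (congrFun e2 j)
          have h9 := (hδle k w1.1 j).trans (S.dl_anti hj k)
          linarith
        · have h7 : aN U δ w b k w1 j = aN U δ w b k w2 j := congrFun hRR j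
          unfold aN at h7
          rw [← e1, if_neg hj, if_neg hj] at h7
          rw [h7, sub_self, abs_zero, mul_zero]
          linarith
    rw [eP, eP, hc, sub_sub_sub_cancel_right, ← mul_sub, abs_mul, abs_of_nonneg (by linarith : 0 ≤ N k)]
    have e1 : (rsp S q).dl b k = S.dl b k := rfl
    rw [e1]
    have h5 := mul_le_mul_of_nonneg_left hYY (by linarith : 0 ≤ N k)
    refine h5.trans (le_of_eq ?_)
    ring)
  unfold PLe Nul
  rw [Metric.tendsto_nhds]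
  intro ε hε
  filter_upwards [ent.eventually (gt_mem_nhds (show 0 < ε / 8 by linarith)),
    hl.eventually (gt_mem_nhds (show 0 < ε / 8 by linarith)), h2 (ε / 8) (by linarith), h1] with k a1 a2 a3 h1
  have hnp : 0 < ((rsp S q).F k).n := (S.F k).pos
  have hnS : (S.F k).n = ((rsp S q).F k).n := rfl
  rw [hnS] at a2
  rw [Real.dist_eq, sub_zero, abs_of_nonneg (div_nonneg (h_nonneg _ _) hnp.le), div_lt_iff₀ hnp, h_fc]
  rw [div_lt_iff₀ hnp, h_fc] at a1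
  have e1 : ∑ _i : Fin M, (b - b) = 0 := by simp
  rw [e1, zero_add, div_le_iff₀ hnp, h_fc, celm_const] at a3
  have b1 : ((rsp S q).F k).e (R k) (B k ⊓ ((rsp S q).F k).Z) ≤ ε / 8 * ((rsp S q).F k).n := by
    refine h1.trans ?_
    have h7 : Real.logb 2 ((cA1 M D q (K k) + 2) + 1) ≤ Real.logb 2 ((cA1 M D q (K k) + 2) + 2) :=
      Real.logb_le_logb_of_le (by norm_num) (by linarith [hcA k]) (by linarith)
    have h8 := mul_le_mul_of_nonneg_right a2.le hnp.le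
    rw [mul_assoc, div_mul_cancel₀ _ hnp.ne'] at h8
    exact (mul_le_mul_of_nonneg_left h7 (Nat.cast_nonneg q)).trans h8
  have b2 : ((rsp S q).F k).e (La k) (B k ⊓ ((rsp S q).F k).Z) ≤ ε / 8 * ((rsp S q).F k).n := by
    refine le_trans (((rsp S q).F k).e_anti ?_) a1.le
    intro w1 w2 _ _ h
    exact ⟨h.1.1.1.1, h.2⟩
  -- chain
  have c1 := ((rsp S q).F k).e_sup_le (La k) (Setoid.ker (P.cellv b k)) (B k ⊓ ((rsp S q).F k).Z)
  have c2 := ((rsp S q).F k).e_triangle (Setoid.ker (P.cellv b k)) (La k ⊓ R k) (B k ⊓ ((rsp S q).F k).Z)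
  have c3 := ((rsp S q).F k).e_sup_le (La k) (R k) (B k ⊓ ((rsp S q).F k).Z)
  have e2 : La k ⊓ R k ⊓ (B k ⊓ ((rsp S q).F k).Z) = La k ⊓ (B k ⊓ R k) ⊓ ((rsp S q).F k).Z := by ac_rfl
  rw [e2] at c2
  have a3' : ((rsp S q).F k).e (Setoid.ker (P.cellv b k)) (La k ⊓ (B k ⊓ R k) ⊓ ((rsp S q).F k).Z) ≤ ε / 8 * ((rsp S q).F k).n := a3
  show ((rsp S q).F k).e (La k ⊓ Setoid.ker (P.cellv b k)) (B k ⊓ ((rsp S q).F k).Z) < ε * ((rsp S q).F k).n
  have hε' : 0 < ε * ((rsp S q).F k).n := mul_pos hε hnp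
  linarith

end

end Pool.Agent.Helper76.ADP
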