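import Pool.Agent.Helper76.THK.Cnt

/-! THE FORM OF `M` ROWS with different scales: `1 + sum t_j ^ 2 (psi_j - c_j) ^ 2`; its size on a cell and its gradient
determinant. -/

set_option autoImplicit false

namespace Pool.Agent.Helper76.ADP

open MvPolynomial Matrix
open Pool.Agent.Helper95.LF (PdM det_mono dv_add)
open Pool.Agent.Helper3.LF Pool.Agent.Helper84.MT
open Pool.Agent.Helper89.LX (dot_self_nonneg)
open Pool.Agent.Helper76.RL (jac)
open Pool.Agent.Helper76.THK (cv pol_cv nodp_zero)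

noncomputable section

variable {M D : ℕ}

/-- the form of the rows -/
def Brt (D : ℕ) (t : Fin M → ℝ) (ψ : Fin M → MvPolynomial (Fin M) ℝ) (c : Fin M → ℝ) : Matrix (Mon M D) (Mon M D) ℝ :=
  1 + ∑ j, rk1 (t j ^ 2) (shf (cv D (ψ j)) (c j))

variable (t : Fin M → ℝ) (ψ : Fin M → MvPolynomial (Fin M) ℝ) (c : Fin M → ℝ)

lemma Brt_qf (x : Mon M D → ℝ) :
    x ⬝ᵥ (Brt D t ψ c *ᵥ x) = x ⬝ᵥ x + ∑ j, t j ^ 2 * (shf (cv D (ψ j)) (c j) ⬝ᵥ x) ^ 2 := by
  unfold Brt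
  rw [dv_add, dv_sum, Matrix.one_mulVec]
  congr 1
  exact Finset.sum_congr rfl fun j _ => qf_rk1 _ _ _

lemma Brt_symm : (Brt D t ψ c).IsSymm := by
  unfold Brt
  apply Matrix.IsSymm.add
  · exact Matrix.isSymm_one
  · have h : ∀ s : Finset (Fin M), (∑ j ∈ s, rk1 (t j ^ 2) (shf (cv D (ψ j)) (c j))).IsSymm := by
      intro s
      classical
      induction s using Finset.induction_on with
      | empty => exact Matrix.isSymm_zero
      | insert a s ha ih =>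
        rw [Finset.sum_insert ha]
        exact (rk1_symm _ _).add ih
    exact h _

lemma Brt_one (x : Mon M D → ℝ) : x ⬝ᵥ x ≤ x ⬝ᵥ (Brt D t ψ c *ᵥ x) := by
  rw [Brt_qf]
  have h : 0 ≤ ∑ j, t j ^ 2 * (shf (cv D (ψ j)) (c j) ⬝ᵥ x) ^ 2 := Finset.sum_nonneg fun j _ => by positivity
  linarith

lemma Brt_nn (x : Mon M D → ℝ) : 0 ≤ x ⬝ᵥ (Brt D t ψ c *ᵥ x) :=
  (dot_self_nonneg x).trans (Brt_one t ψ c x)

/-- size on the cell -/
lemma Brt_phi (hψ : ∀ j, (ψ j).totalDegree ≤ D) {r R B : ℝ} (hr : 0 ≤ r) (hR : 1 ≤ R) (x : Fin M → ℝ)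
    (hx : ∀ i, |x i| + r ≤ R)
    (hB : ∀ j (l : Fin M → Fin (D + 1)), (t j * (eval (nodp D x r l) (ψ j) - c j)) ^ 2 ≤ B) :
    phi r (Brt D t ψ c) x ≤ nn M D * Fintype.card (Mon M D) * R ^ (2 * D) +
      Fintype.card (Fin M → Fin (D + 1)) * (M * B) := by
  have h1 : phi r (Brt D t ψ c) x = phi r (1 : Matrix (Mon M D) (Mon M D) ℝ) x +
      ∑ l : Fin M → Fin (D + 1), ∑ j, (t j * (eval (nodp D x r l) (ψ j) - c j)) ^ 2 := by
    unfold phi
    rw [← Finset.sum_add_distrib]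
    refine Finset.sum_congr rfl fun l _ => ?_
    rw [Brt_qf, Matrix.one_mulVec]
    congr 1
    refine Finset.sum_congr rfl fun j _ => ?_
    rw [← eval_pol, eval_shf, pol_cv (hψ j), mul_pow]
  have h2 := phi_le (1 : Matrix (Mon M D) (Mon M D) ℝ) 1 (fun x => by
    rw [Matrix.one_mulVec, one_mul]) zero_le_one r R hr hR x hx
  rw [mul_one] at h2
  rw [h1]
  apply add_le_add h2
  have h3 : ∀ l ∈ (Finset.univ : Finset (Fin M → Fin (D + 1))),
      ∑ j, (t j * (eval (nodp D x r l) (ψ j) - c j)) ^ 2 ≤ M * B := by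
    intro l _
    refine (Finset.sum_le_card_nsmul _ _ B fun j _ => hB j l).trans (le_of_eq ?_)
    rw [Finset.card_univ, Fintype.card_fin, nsmul_eq_mul]
  refine (Finset.sum_le_card_nsmul _ _ _ h3).trans (le_of_eq ?_)
  rw [Finset.card_univ, nsmul_eq_mul]

/-- the gradient determinant -/
lemma Brt_GQ (hψ : ∀ j, (ψ j).totalDegree ≤ D) (r : ℝ) (x : Fin M → ℝ) :
    (∏ j, t j) ^ 2 * (jac ψ x).det ^ 2 ≤ GQ r (Brt D t ψ c) x := by
  have hpd := one_Jq_pd r (Brt_symm (D := D) t ψ c) (Brt_nn t ψ c) x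
  by_cases h0 : (∏ j, t j) ^ 2 * (jac ψ x).det ^ 2 = 0
  · rw [h0]
    exact le_trans zero_le_one (one_le_GQ r (Brt_symm t ψ c) (Brt_nn t ψ c) x)
  set G : Matrix (Fin M) (Fin M) ℝ := Matrix.diagonal t * jac ψ x with hG
  have hdG : (G.transpose * G).det = (∏ j, t j) ^ 2 * (jac ψ x).det ^ 2 := by
    rw [Matrix.det_mul, Matrix.det_transpose, hG, Matrix.det_mul, Matrix.det_diagonal]
    ring
  have hqG : ∀ y : Fin M → ℝ, y ⬝ᵥ ((G.transpose * G) *ᵥ y) = ∑ j, (G *ᵥ y) j ^ 2 := by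
    intro y
    rw [← Matrix.mulVec_mulVec, Matrix.dotProduct_mulVec, Matrix.vecMul_transpose]
    unfold dotProduct
    exact Finset.sum_congr rfl fun j _ => (pow_two _).symm
  have hGy : ∀ (y : Fin M → ℝ) (j : Fin M), (G *ᵥ y) j =
      t j * (shf (cv D (ψ j)) (c j) ⬝ᵥ (Wq M D (nodp D x r (fun _ => 0)) *ᵥ y)) := by
    intro y j
    have e1 : (Wq M D (nodp D x r (fun _ => 0)) *ᵥ y) = ∑ a, y a • dd a (nodp D x r (fun _ => 0)) := by
      funext μ
      rw [Finset.sum_apply]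
      show ∑ a, dd a (nodp D x r (fun _ => 0)) μ * y a = ∑ a, y a * dd a (nodp D x r (fun _ => 0)) μ
      exact Finset.sum_congr rfl fun a _ => mul_comm _ _
    have e2 : ∀ a, shf (cv D (ψ j)) (c j) ⬝ᵥ dd a (nodp D x r (fun _ => 0)) = eval x (pderiv a (ψ j)) := by
      intro a
      rw [shf_dot, dd_zero, mul_zero, sub_zero, ← eval_pderiv_pol, pol_cv (hψ j), nodp_zero]
    have e3 : (G *ᵥ y) j = ∑ a, G j a * y a := rfl
    rw [e1, dotProduct_sum, Finset.mul_sum, e3]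
    refine Finset.sum_congr rfl fun a _ => ?_
    rw [dotProduct_smul, e2, smul_eq_mul, hG, Matrix.diagonal_mul]
    show t j * eval x (pderiv a (ψ j)) * y a = _
    ring
  have hGpd : PdM (G.transpose * G) := by
    refine ⟨?_, fun y hy => ?_⟩
    · show (G.transpose * G).transpose = _
      rw [Matrix.transpose_mul, Matrix.transpose_transpose]
    · have h1 : 0 ≤ y ⬝ᵥ ((G.transpose * G) *ᵥ y) := by
        rw [hqG]
        exact Finset.sum_nonneg fun j _ => sq_nonneg _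
      rcases h1.lt_or_eq with h2 | h2
      · exact h2
      · exfalso
        rw [hqG] at h2
        have h3 : G *ᵥ y = 0 := by
          funext j
          have h4 := (Finset.sum_eq_zero_iff_of_nonneg (fun j _ => sq_nonneg ((G *ᵥ y) j))).mp h2.symm j (Finset.mem_univ j)
          exact pow_eq_zero_iff (two_ne_zero) |>.mp h4
        have h5 : G.det ≠ 0 := by
          intro h6
          apply h0
          rw [← hdG, Matrix.det_mul, h6, mul_zero]
        exact hy (Matrix.eq_zero_of_mulVec_eq_zero h5 h3)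
  rw [← hdG]
  refine det_mono hGpd hpd.1 fun y => ?_
  rw [dv_add, Matrix.one_mulVec, Jq_qf]
  have h1 := dot_self_nonneg y
  have h2 : y ⬝ᵥ ((G.transpose * G) *ᵥ y) ≤ (Wq M D (nodp D x r (fun _ => 0)) *ᵥ y) ⬝ᵥ
      (Brt D t ψ c *ᵥ (Wq M D (nodp D x r (fun _ => 0)) *ᵥ y)) := by
    rw [hqG, Brt_qf]
    have h3 : ∀ j, (G *ᵥ y) j ^ 2 = t j ^ 2 * (shf (cv D (ψ j)) (c j) ⬝ᵥ
        (Wq M D (nodp D x r (fun _ => 0)) *ᵥ y)) ^ 2 := by
      intro j
      rw [hGy, mul_pow]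
    rw [Finset.sum_congr rfl fun j _ => h3 j]
    have h4 := dot_self_nonneg (Wq M D (nodp D x r (fun _ => 0)) *ᵥ y)
    linarith
  have h3 := Finset.single_le_sum (f := fun j : Fin M → Fin (D + 1) => (Wq M D (nodp D x r j) *ᵥ y) ⬝ᵥ
      (Brt D t ψ c *ᵥ (Wq M D (nodp D x r j) *ᵥ y))) (fun j _ => Brt_nn t ψ c _) (Finset.mem_univ (fun _ => 0))
  have h4 : (Wq M D (nodp D x r (fun _ => 0)) *ᵥ y) ⬝ᵥ
      (Brt D t ψ c *ᵥ (Wq M D (nodp D x r (fun _ => 0)) *ᵥ y)) ≤ ∑ j : Fin M → Fin (D + 1),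
      (Wq M D (nodp D x r j) *ᵥ y) ⬝ᵥ (Brt D t ψ c *ᵥ (Wq M D (nodp D x r j) *ᵥ y)) := h3
  linarith

end

end Pool.Agent.Helper76.ADP
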