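import Pool.Agent.Helper76.ADP.Brt
import Pool.Agent.Helper81.AD.Frs
import Pool.Agent.Helper66.HK.E5

/-! FRESH DIGITS of a vector of variables: coordinate `j` is cut at the scale `delta_j` (pointwise, known to the label) and
continued by a uniform independent variable; the entropy of the fine cells. -/

set_option autoImplicit false

namespace Pool.Agent.Helper76.ADP

open Finset Filter Topology Matrix Metric Pool.Agent.Helper69.RK Pool.Agent.Helper31.EC Pool.Agent.Helper31.EC.Sp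
open Pool.Agent.Helper40.EL
open Pool.Agent.Helper3.LF Pool.Agent.Helper84.MT
open Pool.Agent.Helper81.AD (fu fu_law fu_e)
open Pool.Agent.Helper63.FRT (e_pi_le)

noncomputable section

lemma card_int_le (t : Finset ℤ) {K : ℝ} (hne : t.Nonempty) (ht : ∀ a ∈ t, ∀ b ∈ t, |(a : ℝ) - b| ≤ K) :
    ((t.card : ℕ) : ℝ) ≤ K + 1 := by
  obtain ⟨a, ha1, ha2⟩ : ∃ a ∈ t, ∀ b ∈ t, a ≤ b := ⟨t.min' hne, t.min'_mem hne, fun b hb => t.min'_le b hb⟩
  obtain ⟨b, hb1, hb2⟩ : ∃ a ∈ t, ∀ b ∈ t, b ≤ a := ⟨t.max' hne, t.max'_mem hne, fun b hb => t.le_max' b hb⟩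
  have hsub : t ⊆ Finset.Icc a b := fun x hx => Finset.mem_Icc.mpr ⟨ha2 x hx, hb2 x hx⟩
  have hcard := Finset.card_le_card hsub
  rw [Int.card_Icc] at hcard
  have hab : a ≤ b := ha2 b hb1
  have h3 := ht b hb1 a ha1
  have h4 : ((t.card : ℕ) : ℝ) ≤ ((b + 1 - a).toNat : ℝ) := by exact_mod_cast hcard
  have h5 : ((b + 1 - a).toNat : ℝ) = (b : ℝ) + 1 - a := by
    have h6 : ((b + 1 - a).toNat : ℤ) = b + 1 - a := Int.toNat_of_nonneg (by omega)
    have h7 : (((b + 1 - a).toNat : ℤ) : ℝ) = ((b + 1 - a : ℤ) : ℝ) := by rw [h6]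
    push_cast at h7
    exact h7
  rw [h5] at h4
  have h6 := le_abs_self ((b : ℝ) - a)
  linarith

/-- an integer variable which varies by at most `K` on the atoms of the condition, `K` pointwise -/
theorem e_int_pt (F : FSp) (X : F.Ω → ℤ) (B : Setoid F.Ω) (K : F.Ω → ℝ)
    (h : ∀ ω ω' ω'', F.μ ω ≠ 0 → F.μ ω' ≠ 0 → F.μ ω'' ≠ 0 → B ω' ω → B ω'' ω → |(X ω' : ℝ) - X ω''| ≤ K ω) :
    F.e (Setoid.ker X) B ≤ ∑ ω, F.μ ω * Real.logb 2 (K ω + 1) := by
  have h0 : F.e (Setoid.ker X) B = CH F.μ X (Quotient.mk B) := by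
    apply F.e_congr
    · intro ω ω' _ _
      exact Iff.rfl
    · intro ω ω' _ _
      exact Quotient.eq.symm
  rw [h0]
  apply st_E3.1 F.Ω _ _ F.μ X (Quotient.mk B) (fun ω => K ω + 1) F.nn
  intro ω hω
  have key : ∀ (dec1 : DecidableEq ℤ) (dec2 : DecidablePred fun ω' => F.μ ω' ≠ 0 ∧ Quotient.mk B ω' = Quotient.mk B ω),
      (((@Finset.image _ _ dec1 X (@Finset.filter _ (fun ω' => F.μ ω' ≠ 0 ∧ Quotient.mk B ω' = Quotient.mk B ω) dec2
        Finset.univ)).card : ℕ) : ℝ) ≤ K ω + 1 := by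
    intro dec1 dec2
    refine card_int_le _ ?_ ?_
    · exact ⟨X ω, Finset.mem_image.mpr ⟨ω, Finset.mem_filter.mpr ⟨Finset.mem_univ _, hω, rfl⟩, rfl⟩⟩
    · intro a ha b hb
      obtain ⟨w1, p1, rfl⟩ := Finset.mem_image.mp ha
      obtain ⟨w2, p2, rfl⟩ := Finset.mem_image.mp hb
      have p1' := Finset.mem_filter.mp p1
      have p2' := Finset.mem_filter.mp p2
      exact h ω w1 w2 hω p1'.2.1 p2'.2.1 (Quotient.exact p1'.2.2) (Quotient.exact p2'.2.2)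
  exact key _ _

variable (S : Sp) (q : ℕ)

/-- the number of the fresh values (minus one) -/
def gn (k : ℕ) : ℕ := ⌈(2 : ℝ) ^ (S.F k).n⌉₊

/-- the values of the fresh variables -/
abbrev Gf (k : ℕ) : Type := Fin q → Fin (gn S k + 1)

/-- the extension by fresh variables -/
def rsp : Sp := ⟨fun k => fu (S.F k) (Gf S q k), S.lim⟩

def rpj : Pj (rsp S q) S where
  π := fun _ w => w.1
  law := fun k => fu_law (S.F k) (Gf S q k)
  hZ := fun _ _ _ _ _ => Iff.rfl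
  hn := fun _ => rfl

/-- the partition of the fresh variables -/
def rfr : ∀ k, Setoid ((rsp S q).F k).Ω := fun _ => Setoid.ker Prod.snd

variable {S q}

section

variable (U : S.VV q) (δ : ∀ k, (S.F k).Ω → Fin q → ℝ)

/-- the integer parts -/
def rfo (k : ℕ) (ω : (S.F k).Ω) (j : Fin q) : ℤ := ⌊U.v k ω j / δ k ω j⌋

/-- the continued variables -/
def rvl (k : ℕ) (w : ((rsp S q).F k).Ω) (j : Fin q) : ℝ :=
  δ k w.1 j * (rfo U δ k w.1 j + ((w.2 j : ℕ) : ℝ) / (gn S k + 1))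

lemma ru_mem (k : ℕ) (w : ((rsp S q).F k).Ω) (j : Fin q) :
    0 ≤ ((w.2 j : ℕ) : ℝ) / (gn S k + 1) ∧ ((w.2 j : ℕ) : ℝ) / (gn S k + 1) < 1 := by
  have h1 : (0 : ℝ) < (gn S k : ℝ) + 1 := by positivity
  have h2 : (((w.2 j : Fin (gn S k + 1)) : ℕ) : ℝ) < (gn S k : ℝ) + 1 := by exact_mod_cast (w.2 j).2
  refine ⟨by positivity, ?_⟩
  rw [div_lt_one h1]
  exact h2

lemma rvl_near (k : ℕ) (w : ((rsp S q).F k).Ω) (j : Fin q) (hδ : 0 < δ k w.1 j) :
    |rvl U δ k w j - U.v k w.1 j| ≤ δ k w.1 j := by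
  obtain ⟨h1, h2⟩ := ru_mem (S := S) (q := q) k w j
  have h3 := Int.floor_le (U.v k w.1 j / δ k w.1 j)
  have h4 := Int.lt_floor_add_one (U.v k w.1 j / δ k w.1 j)
  rw [le_div_iff₀ hδ] at h3
  rw [div_lt_iff₀ hδ] at h4
  have e1 : rvl U δ k w j = δ k w.1 j * ((⌊U.v k w.1 j / δ k w.1 j⌋ : ℝ) + ((w.2 j : ℕ) : ℝ) / (gn S k + 1)) := rfl
  rw [e1, abs_le]
  constructor <;> nlinarith

/-- the continued variables, if the cuts are small -/
def rv (hδ : ∀ᶠ k in UF, ∀ ω, (S.F k).μ ω ≠ 0 → ∀ j, 0 < δ k ω j ∧ δ k ω j ≤ 1) : (rsp S q).VV q where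
  v := fun k w j => rvl U δ k w j
  bd := by
    obtain ⟨K, hK, hU⟩ := U.bd
    refine ⟨fun k => K k + 1, hK.add (S.Sub_const zero_le_one), ?_⟩
    filter_upwards [hU, hδ] with k hk hδk w hw j
    have hw' := (rpj S q).supp k w hw
    have h1 := hk w.1 hw' j
    have h2 := rvl_near U δ k w j (hδk w.1 hw' j).1
    have h3 := (hδk w.1 hw' j).2
    have h4 := abs_add_le (rvl U δ k w j - U.v k w.1 j) (U.v k w.1 j)
    rw [sub_add_cancel] at h4
    linarith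

/-- ENTROPY of the cells of the continued variables (finite level) -/
theorem rvl_ent (k : ℕ) (A0 B : Setoid (S.F k).Ω) {r : ℝ} (hr : 0 < r) (hδ : ∀ ω j, 0 < δ k ω j)
    (hB : ∀ ω ω', (S.F k).μ ω ≠ 0 → (S.F k).μ ω' ≠ 0 → (S.F k).Z ω ω' → B ω ω' → δ k ω = δ k ω') :
    (S.F k).e (A0 ⊓ Setoid.ker (rfo U δ k)) (B ⊓ (S.F k).Z) + q * Real.logb 2 (gn S k + 1) ≤
      ((rsp S q).F k).e (Setoid.comap Prod.fst A0 ⊓ Setoid.ker (fun w j => ⌊rvl U δ k w j / r⌋))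
        (Setoid.comap Prod.fst B ⊓ ((rsp S q).F k).Z) +
        ∑ j, ∑ ω, (S.F k).μ ω * Real.logb 2 (r * (gn S k + 1) / δ k ω j + 1) := by
  set F' : FSp := (rsp S q).F k with hF'
  set G : Type := Gf S q k with hG
  set B₀ : Setoid (S.F k).Ω := B ⊓ (S.F k).Z with hB₀
  set B' : Setoid F'.Ω := Setoid.comap Prod.fst B ⊓ F'.Z with hB'
  have eB : B' = Setoid.comap Prod.fst B₀ := rfl
  set A1 : Setoid F'.Ω := Setoid.comap Prod.fst (A0 ⊓ Setoid.ker (rfo U δ k)) with hA1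
  set X : Setoid F'.Ω := Setoid.comap Prod.fst A0 ⊓ Setoid.ker (fun w j => ⌊rvl U δ k w j / r⌋) with hX
  set N : F'.Ω → Fin q → ℤ := fun w j => rfo U δ k w.1 j * (gn S k + 1) + ((w.2 j : ℕ) : ℤ) with hN
  have h1 : F'.e A1 B' = (S.F k).e (A0 ⊓ Setoid.ker (rfo U δ k)) B₀ := (rpj S q).e_comap k _ _
  have h2 : F'.e (Setoid.ker Prod.snd) (A1 ⊓ B') = Real.logb 2 (Fintype.card G) :=
    fu_e (S.F k) G ((A0 ⊓ Setoid.ker (rfo U δ k)) ⊓ B₀)
  have h3 := F'.e_chain A1 (Setoid.ker Prod.snd) B'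
  have h4 : F'.e (A1 ⊓ Setoid.ker Prod.snd) B' ≤ F'.e (Setoid.comap Prod.fst A0 ⊓ Setoid.ker N) B' := by
    apply F'.e_mono
    intro w w' _ _ h _
    have h5 : ∀ j, rfo U δ k w.1 j * (gn S k + 1) + ((w.2 j : ℕ) : ℤ) = rfo U δ k w'.1 j * (gn S k + 1) +
      ((w'.2 j : ℕ) : ℤ) := fun j => congrFun h.2 j
    have h6 : ∀ (c : ℤ) (g : Fin (gn S k + 1)),
        (c * ((gn S k : ℤ) + 1) + ((g : ℕ) : ℤ)) / ((gn S k : ℤ) + 1) = c := by
      intro c g
      have hp : (0 : ℤ) < (gn S k : ℤ) + 1 := by positivity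
      rw [add_comm, Int.add_mul_ediv_right _ _ hp.ne', Int.ediv_eq_zero_of_lt (by positivity) (by exact_mod_cast g.2),
        zero_add]
    have h7 : ∀ j, rfo U δ k w.1 j = rfo U δ k w'.1 j := by
      intro j
      have := congrArg (fun z => z / ((gn S k : ℤ) + 1)) (h5 j)
      rwa [h6, h6] at this
    refine ⟨⟨h.1, funext h7⟩, ?_⟩
    show w.2 = w'.2
    funext j
    have h8 := h5 j
    rw [h7 j] at h8
    have h9 : ((w.2 j : ℕ) : ℤ) = ((w'.2 j : ℕ) : ℤ) := by linarith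
    exact Fin.ext (by exact_mod_cast h9)
  have h5 := F'.e_triangle (Setoid.comap Prod.fst A0 ⊓ Setoid.ker N) X B'
  have h6 : F'.e (Setoid.comap Prod.fst A0 ⊓ Setoid.ker N) (X ⊓ B') ≤
      ∑ j, ∑ ω, (S.F k).μ ω * Real.logb 2 (r * (gn S k + 1) / δ k ω j + 1) := by
    have h7 : F'.e (Setoid.comap Prod.fst A0 ⊓ Setoid.ker N) (X ⊓ B') ≤ F'.e (Setoid.ker N) (X ⊓ B') := by
      have h8 := F'.e_sup_le (Setoid.comap Prod.fst A0) (Setoid.ker N) (X ⊓ B')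
      have h9 : F'.e (Setoid.comap Prod.fst A0) (X ⊓ B') = 0 := F'.e_zero fun w w' _ _ h => h.1.1
      linarith
    refine h7.trans ((e_pi_le F' N (X ⊓ B')).trans (Finset.sum_le_sum fun j _ => ?_))
    have h8 := e_int_pt F' (fun w => N w j) (X ⊓ B') (fun w => r * (gn S k + 1) / δ k w.1 j) (by
      intro w0 w w' a0 a1 a2 b1 b2
      have hs := fun w hw => (rpj S q).supp k w hw
      have c1 : δ k w.1 = δ k w0.1 := hB _ _ (hs w a1) (hs w0 a0) b1.2.2 b1.2.1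
      have c2 : δ k w'.1 = δ k w0.1 := hB _ _ (hs w' a2) (hs w0 a0) b2.2.2 b2.2.1
      have d1 : ⌊rvl U δ k w j / r⌋ = ⌊rvl U δ k w0 j / r⌋ := congrFun b1.1.2 j
      have d2 : ⌊rvl U δ k w' j / r⌋ = ⌊rvl U δ k w0 j / r⌋ := congrFun b2.1.2 j
      have h7 : |rvl U δ k w j - rvl U δ k w' j| ≤ r := abs_sub_le_of_floor_eq hr (d1.trans d2.symm)
      have hp : (0 : ℝ) < (gn S k : ℝ) + 1 := by positivity
      have h8 : ∀ w : F'.Ω, rvl U δ k w j = δ k w.1 j / (gn S k + 1) * (N w j : ℝ) := by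
        intro w
        have e1 : rvl U δ k w j = δ k w.1 j * (rfo U δ k w.1 j + ((w.2 j : ℕ) : ℝ) / (gn S k + 1)) := Eq.refl _
        rw [e1]
        simp only [hN]
        push_cast
        field_simp
      rw [h8, h8, c1, c2, ← mul_sub, abs_mul, abs_of_pos (div_pos (hδ _ j) hp), div_mul_eq_mul_div, div_le_iff₀ hp] at h7
      rw [le_div_iff₀ (hδ _ j), mul_comm]
      exact h7)
    refine h8.trans (le_of_eq ?_)
    have h9 := Pool.Agent.Helper66.HK.e5_sum_push F'.μ ((rpj S q).π k)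
      (fun ω => Real.logb 2 (r * (gn S k + 1) / δ k ω j + 1))
    rw [(rpj S q).law k] at h9
    exact h9.symm
  have h7 : q * Real.logb 2 ((gn S k : ℝ) + 1) = Real.logb 2 (Fintype.card G) := by
    have e1 : (Fintype.card G : ℝ) = ((gn S k : ℝ) + 1) ^ q := by
      have e3 : Fintype.card (Gf S q k) = (gn S k + 1) ^ q := by
        rw [Fintype.card_pi]
        simp
      show ((Fintype.card (Gf S q k) : ℕ) : ℝ) = _
      rw [e3]
      push_cast
      rfl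
    rw [e1, Real.logb_pow]
  rw [h7]
  linarith

end

end

end Pool.Agent.Helper76.ADP
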