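import Pool.Agent.Helper76.ADP.Adl
import Pool.Agent.Helper82.LPW.Lipg
import Pool.Agent.Helper80.SUB.Def

/-! THE ADAPTED LEAF AND THE TYPES: the fresh digits are independent of everything; the windows of the adapted leaf over a
label `V`, independent of the space of a leaf `l` given its window `0`, are known to the windows of `l`, `V` and the fresh
digits. -/

set_option autoImplicit false

namespace Pool.Agent.Helper76.ADP

open Finset Filter Topology Matrix Metric Pool.Agent.Helper69.RK Pool.Agent.Helper31.EC Pool.Agent.Helper31.EC.Sp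
open Pool.Agent.Helper40.EL
open Pool.Agent.Helper3.LF Pool.Agent.Helper84.MT
open Pool.Agent.Helper81.AD (fu fu_law fu_e)
open Pool.Agent.Helper38.NSL Pool.Agent.Helper80.SUB Pool.Agent.Helper82.LPW

noncomputable section

variable {S T : Sp} {M v q D : ℕ} {E' : ℕ → ℕ}

/-- the entropy of the fresh digits given anything of the old space -/
theorem rfr_h (k : ℕ) (x : FL (S.F k)) :
    h (fc (F := (rsp S q).F k) (rfr S q k)) (((rpj S q).fp k).map x) = Real.logb 2 (Fintype.card (Gf S q k)) := by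
  induction x using fc_ind with | _ A
  rw [FPj.map_fc, h_fc]
  exact fu_e (S.F k) (Gf S q k) (A ⊓ (S.F k).Z)

/-- the fresh digits are independent -/
theorem rfr_I (k : ℕ) (x y : FL (S.F k)) :
    I (fc (F := (rsp S q).F k) (rfr S q k)) (((rpj S q).fp k).map x) (((rpj S q).fp k).map y) = 0 := by
  have h1 : I (fc (F := (rsp S q).F k) (rfr S q k)) (((rpj S q).fp k).map x) (((rpj S q).fp k).map y) =
      h (fc (F := (rsp S q).F k) (rfr S q k)) (((rpj S q).fp k).map y) -
      h (fc (F := (rsp S q).F k) (rfr S q k)) (((rpj S q).fp k).map (x ⊔ y)) := by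
    rw [FPj.map_sup]
    unfold I h
    rw [← sup_assoc]
    ring
  rw [h1, rfr_h, rfr_h, sub_self]

theorem rfr_NI : NI (S := rsp S q) (fun k => fc (rfr S q k)) (ptop (rpj S q)) (fun _ => ⊥) := by
  unfold NI
  have h1 : (fun k => I (fc (F := (rsp S q).F k) (rfr S q k)) (ptop (rpj S q) k) ⊥) = fun _ => 0 := by
    funext k
    have h2 := rfr_I (q := q) k (fc (⊥ : Setoid (S.F k).Ω)) (⊥ : FL (S.F k))
    rw [FPj.map_bot, FPj.map_fc] at h2
    exact h2
  rw [h1]
  exact Nul_zero _

/-- independence of the label with the fresh digits -/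
theorem ni_fresh (p : Pj T S) {V : ∀ k, Setoid (T.F k).Ω} {A : Part S}
    (hV : NI (fun k => fc (V k)) (ptop p) (A.pull p)) :
    NI (S := rsp T q) (fun k => fc ((rpj T q).pb V k ⊓ rfr T q k)) (ptop ((rpj T q).comp p))
      (A.pull ((rpj T q).comp p)) := by
  unfold NI at hV ⊢
  have h1 : ∀ k, I (fc (F := (rsp T q).F k) ((rpj T q).pb V k ⊓ rfr T q k)) (ptop ((rpj T q).comp p) k)
      (A.pull ((rpj T q).comp p) k) = I (fc (V k)) (ptop p k) (A.pull p k) := by
    intro k
    have e1 : fc (F := (rsp T q).F k) ((rpj T q).pb V k ⊓ rfr T q k) =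
        ((rpj T q).fp k).map (fc (V k)) ⊔ fc (rfr T q k) := by
      rw [fc_inf]
      rfl
    have e2 : ptop ((rpj T q).comp p) k = ((rpj T q).fp k).map (ptop p k) := rfl
    have e3 : A.pull ((rpj T q).comp p) k = ((rpj T q).fp k).map (A.pull p k) :=
      FPj.comp_map ((rpj T q).fp k) (p.fp k) (A k)
    rw [e1, e2, e3, I_chain, FPj.I_map, ← FPj.map_sup, rfr_I, add_zero]
  have h2 : (fun k => I (fc (F := (rsp T q).F k) ((rpj T q).pb V k ⊓ rfr T q k)) (ptop ((rpj T q).comp p) k)
      (A.pull ((rpj T q).comp p) k)) = fun k => I (fc (V k)) (ptop p k) (A.pull p k) := funext h1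
  rw [h2]
  exact hV

variable {Q : S.VV M}

/-- WINDOWS of the adapted leaf over the windows of a type -/
theorem adp_win (l : Leaf S Q E') (p : Pj T S) {hvq : v + q = M} {V : ∀ k, Setoid (T.F k).Ω}
    {E : ∀ k, (T.F k).Ω → (Fin v ⊕ Fin q ≃ Fin M)} {f : ∀ k, (T.F k).Ω → Fin q → MvPolynomial (Fin M) ℝ}
    {w : ∀ k, (T.F k).Ω → Fin q → ℝ} (x : RowsF V (p.vv Q) D E f w)
    (hV : NI (fun k => fc (V k)) (ptop p) ((l.win 0).pull p)) {U : T.VV q} {g L : ℕ}
    {La : ∀ k, Setoid ((rsp T q).F k).Ω} {P : (rsp T q).VV M} {u : (rsp T q).VV q} {N : ℕ → ℝ}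
    {c : ∀ k, ((rsp T q).F k).Ω → Fin M → ℤ}
    {β : ∀ k, ((rsp T q).F k).Ω → Fin L} {A : ∀ k, ((rsp T q).F k).Ω → Prop}
    {l' : Leaf (rsp T q) ((rpj T q).vv (p.vv Q)) (Pool.Agent.Helper84.MT.lin g)}
    (a : ALeaf hvq V (p.vv Q) E f w U g L La P u N c β A l') {b : ℝ} (hb0 : 0 ≤ b) (hb1 : b ≤ 1) :
    PLe (S := rsp T q) (l'.win b) (Pjn ((l.win b).pull ((rpj T q).comp p))
      (fun k => fc ((rpj T q).pb V k ⊓ rfr T q k))) := by
  -- the cells of the free coordinates
  have h1 : PLe (S := T) (fun k => fc (Setoid.ker ((p.vv Q).cellv b k))) ((l.win b).pull p) := by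
    have e1 : (fun k => fc (F := T.F k) (Setoid.ker ((p.vv Q).cellv b k))) =
        Part.pull p (fun k => fc (Setoid.ker (Q.cellv b k))) := by
      funext k
      rw [vv_cellv]
      rfl
    rw [e1]
    exact PLe_pull (l.dg_win hb0 hb1) p
  have h2 : PLe (S := T) (fun k => fc (Setoid.ker ((aS (p.vv Q) E).cellv b k)))
      (Pjn ((l.win b).pull p) (fun k => fc (V k))) := by
    have h3 : PLe (S := T) (fun k => fc (Setoid.ker ((aS (p.vv Q) E).cellv b k)))
        (Pjn (fun k => fc (Setoid.ker ((p.vv Q).cellv b k))) (fun k => fc (V k))) := by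
      unfold PLe Nul
      refine (tendsto_congr' ?_).mpr (tendsto_const_nhds (x := (0 : ℝ)))
      filter_upwards [x.msE] with k hk
      have h4 : h (fc (Setoid.ker ((aS (p.vv Q) E).cellv b k)))
          (Pjn (fun k => fc (Setoid.ker ((p.vv Q).cellv b k))) (fun k => fc (V k)) k) = 0 := by
        apply h_zero
        show fc (Setoid.ker ((aS (p.vv Q) E).cellv b k)) ≤ fc (Setoid.ker ((p.vv Q).cellv b k)) ⊔ fc (V k)
        rw [← fc_inf]
        apply fc_le
        intro ω ω' a1 a2 z hh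
        have h5 := hk ω ω' a1 a2 z hh.2
        have h6 : (p.vv Q).cellv b k ω = (p.vv Q).cellv b k ω' := hh.1
        show (aS (p.vv Q) E).cellv b k ω = (aS (p.vv Q) E).cellv b k ω'
        funext i
        show ⌊(p.vv Q).v k ω (E k ω (Sum.inl i)) / T.dl b k⌋ = ⌊(p.vv Q).v k ω' (E k ω' (Sum.inl i)) / T.dl b k⌋
        rw [← h5]
        exact congrFun h6 _
      rw [h4, zero_div]
    exact h3.trans ((h1.trans (PLe_left _ _)).sup_le (PLe_right _ _))
  -- the cut cells of the rows
  have h3 : PLe (S := T) (fun k => fc (Setoid.ker (acel U w b k))) (Pjn ((l.win b).pull p) (fun k => fc (V k))) :=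
    lipg_rows l p V hV f x.deg w x.w01 x.msf x.msw x.bd x.der U a.tU hb0
  -- everything
  refine (a.win b).trans ?_
  have e1 : (fun k => fc (F := (rsp T q).F k) (aB V (aS (p.vv Q) E) U w b k)) = fun k =>
      (fc (F := (rsp T q).F k) ((rpj T q).pb V k ⊓ rfr T q k) ⊔
        ((rpj T q).fp k).map (fc (Setoid.ker ((aS (p.vv Q) E).cellv b k)))) ⊔
        ((rpj T q).fp k).map (fc (Setoid.ker (acel U w b k))) := by
    funext k
    unfold aB
    rw [fc_inf, fc_inf]
    rfl
  rw [e1]
  have e2 : (l.win b).pull ((rpj T q).comp p) = ((l.win b).pull p).pull (rpj T q) := by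
    funext k
    exact FPj.comp_map ((rpj T q).fp k) (p.fp k) (l.win b k)
  rw [e2]
  have h4 : PLe (S := rsp T q) ((Pjn ((l.win b).pull p) (fun k => fc (V k))).pull (rpj T q))
      (Pjn (((l.win b).pull p).pull (rpj T q)) (fun k => fc ((rpj T q).pb V k ⊓ rfr T q k))) := by
    have e3 : (Pjn ((l.win b).pull p) (fun k => fc (V k))).pull (rpj T q) =
        Pjn (((l.win b).pull p).pull (rpj T q)) (fun k => fc ((rpj T q).pb V k)) := by
      funext k
      exact ((rpj T q).fp k).map_sup _ _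
    rw [e3]
    refine (PLe_left _ _).sup_le ?_
    refine PLe.trans (PLe_of_le fun k => ?_) (PLe_right _ _)
    exact fc_mono (F := (rsp T q).F k) inf_le_left
  exact ((PLe_right _ _).sup_le ((PLe_pull h2 (rpj T q)).trans h4)).sup_le ((PLe_pull h3 (rpj T q)).trans h4)

end

end Pool.Agent.Helper76.ADP
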